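import Mathlib
import Pool.Agent.Results.MP_12cf7c_an.WholeClass

set_option autoImplicit false

open Set Filter Topology Metric

namespace Pool.Agent.Y699.HJ

open Pool.Agent.Results.MP_12cf7c_an.WholeClass

variable {n : ℕ}

theorem isOpenQuotientMap_proj : IsOpenQuotientMap (proj (n := n)) := by
  have h1 : IsOpenQuotientMap (Pi.map (fun (_ : Fin n) (t : ℝ) => (t : UnitAddCircle))) :=
    IsOpenQuotientMap.piMap (fun _ => QuotientAddGroup.isOpenQuotientMap_mk)
  have h2 : IsOpenQuotientMap (EuclideanSpace.equiv (Fin n) ℝ) :=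
    (EuclideanSpace.equiv (Fin n) ℝ).toHomeomorph.isOpenQuotientMap
  exact h1.comp h2

theorem proj_sub (x y : Vec n) : proj (x - y) = proj x - proj y := by
  funext i
  simp [proj]

/-! ### Trigonometric functions on the circle -/

theorem cos_periodic : Function.Periodic (fun t : ℝ => Real.cos (2 * Real.pi * t)) 1 := by
  intro t
  show Real.cos (2 * Real.pi * (t + 1)) = Real.cos (2 * Real.pi * t)
  rw [mul_add, mul_one, Real.cos_add_two_pi]

theorem sin_periodic : Function.Periodic (fun t : ℝ => Real.sin (2 * Real.pi * t)) 1 := by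
  intro t
  show Real.sin (2 * Real.pi * (t + 1)) = Real.sin (2 * Real.pi * t)
  rw [mul_add, mul_one, Real.sin_add_two_pi]

/-- `cos (2 π t)` on the circle -/
noncomputable def cosT : UnitAddCircle → ℝ := cos_periodic.lift

/-- `sin (2 π t)` on the circle -/
noncomputable def sinT : UnitAddCircle → ℝ := sin_periodic.lift

@[simp] theorem cosT_coe (t : ℝ) : cosT (t : UnitAddCircle) = Real.cos (2 * Real.pi * t) :=
  cos_periodic.lift_coe t

@[simp] theorem sinT_coe (t : ℝ) : sinT (t : UnitAddCircle) = Real.sin (2 * Real.pi * t) :=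
  sin_periodic.lift_coe t

theorem continuous_cosT : Continuous cosT := by
  have h : IsOpenQuotientMap ((↑) : ℝ → UnitAddCircle) := QuotientAddGroup.isOpenQuotientMap_mk
  rw [h.isQuotientMap.continuous_iff]
  have h2 : cosT ∘ ((↑) : ℝ → UnitAddCircle) = fun t : ℝ => Real.cos (2 * Real.pi * t) := by
    funext t; exact cosT_coe t
  rw [h2]; fun_prop

theorem continuous_sinT : Continuous sinT := by
  have h : IsOpenQuotientMap ((↑) : ℝ → UnitAddCircle) := QuotientAddGroup.isOpenQuotientMap_mk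
  rw [h.isQuotientMap.continuous_iff]
  have h2 : sinT ∘ ((↑) : ℝ → UnitAddCircle) = fun t : ℝ => Real.sin (2 * Real.pi * t) := by
    funext t; exact sinT_coe t
  rw [h2]; fun_prop

/-- the periodic substitute of `|x|²/2` -/
noncomputable def g (x : Vec n) : ℝ := ∑ i, (1 - Real.cos (2 * Real.pi * x i)) / (4 * Real.pi ^ 2)

/-- its gradient -/
noncomputable def Dg (x : Vec n) : Vec n :=
  WithLp.toLp 2 (fun i => Real.sin (2 * Real.pi * x i) / (2 * Real.pi))

noncomputable def gT (z : Torus n) : ℝ := ∑ i, (1 - cosT (z i)) / (4 * Real.pi ^ 2)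

noncomputable def DgT (z : Torus n) : Vec n :=
  WithLp.toLp 2 (fun i => sinT (z i) / (2 * Real.pi))

theorem gT_proj (x : Vec n) : gT (proj x) = g x := by
  simp [gT, g, proj]

theorem DgT_proj (x : Vec n) : DgT (proj x) = Dg x := by
  simp [DgT, Dg, proj]

theorem continuous_gT : Continuous (gT (n := n)) := by
  unfold gT
  refine continuous_finsetSum _ fun i _ => ?_
  exact (continuous_const.sub (continuous_cosT.comp (continuous_apply i))).div_const _

theorem continuous_DgT : Continuous (DgT (n := n)) := by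
  unfold DgT
  refine (PiLp.continuous_toLp 2 _).comp ?_
  refine continuous_pi fun i => ?_
  exact (continuous_sinT.comp (continuous_apply i)).div_const _

theorem contDiff_g : ContDiff ℝ 1 (g (n := n)) := by
  unfold g
  fun_prop

theorem hasGradientAt_g (x : Vec n) : HasGradientAt g (Dg x) x := by
  rw [hasGradientAt_iff_hasFDerivAt]
  have h1 : ∀ i : Fin n, HasFDerivAt
      (fun x : Vec n => (1 - Real.cos (2 * Real.pi * x i)) / (4 * Real.pi ^ 2))
      ((Real.sin (2 * Real.pi * x i) / (2 * Real.pi)) • (EuclideanSpace.proj i : Vec n →L[ℝ] ℝ))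
      x := by
    intro i
    have h2 : HasFDerivAt (fun x : Vec n => x i) (EuclideanSpace.proj i : Vec n →L[ℝ] ℝ) x :=
      (EuclideanSpace.proj i : Vec n →L[ℝ] ℝ).hasFDerivAt
    have h3 : HasDerivAt (fun t : ℝ => (1 - Real.cos (2 * Real.pi * t)) / (4 * Real.pi ^ 2))
        (Real.sin (2 * Real.pi * x i) / (2 * Real.pi)) (x i) := by
      have h4 : HasDerivAt (fun t : ℝ => 2 * Real.pi * t) (2 * Real.pi) (x i) := by
        simpa using (hasDerivAt_id (x i)).const_mul (2 * Real.pi)
      have h5 := ((h4.cos).const_sub 1).div_const (4 * Real.pi ^ 2)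
      refine h5.congr_deriv ?_
      have := Real.pi_ne_zero
      field_simp
      ring
    exact h3.comp_hasFDerivAt x h2
  have h2 := HasFDerivAt.fun_sum (u := Finset.univ) (fun i _ => h1 i)
  have h3 : (InnerProductSpace.toDual ℝ (Vec n)) (Dg x) =
      ∑ i, (Real.sin (2 * Real.pi * x i) / (2 * Real.pi)) •
        (EuclideanSpace.proj i : Vec n →L[ℝ] ℝ) := by
    ext v
    simp [Dg, PiLp.inner_apply, mul_comm]
  rw [h3]
  exact h2

theorem abs_sin_sub_le (a b : ℝ) : |Real.sin a - Real.sin b| ≤ |a - b| := by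
  rw [Real.sin_sub_sin]
  have h1 : |Real.sin ((a - b) / 2)| ≤ |(a - b) / 2| := Real.abs_sin_le_abs
  have h2 : |Real.cos ((a + b) / 2)| ≤ 1 := Real.abs_cos_le_one _
  rw [abs_mul, abs_mul, abs_two]
  have h3 : |(a - b) / 2| = |a - b| / 2 := by rw [abs_div, abs_two]
  rw [h3] at h1
  have h4 : 0 ≤ |Real.sin ((a - b) / 2)| := abs_nonneg _
  have h5 : 0 ≤ |Real.cos ((a + b) / 2)| := abs_nonneg _
  nlinarith

theorem abs_cos_sub_le (a b : ℝ) : |Real.cos a - Real.cos b| ≤ |a - b| := by
  rw [Real.cos_sub_cos]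
  have h1 : |Real.sin ((a - b) / 2)| ≤ |(a - b) / 2| := Real.abs_sin_le_abs
  have h2 : |Real.sin ((a + b) / 2)| ≤ 1 := Real.abs_sin_le_one _
  rw [abs_mul, abs_mul, abs_neg, abs_two]
  have h3 : |(a - b) / 2| = |a - b| / 2 := by rw [abs_div, abs_two]
  rw [h3] at h1
  have h4 : 0 ≤ |Real.sin ((a - b) / 2)| := abs_nonneg _
  have h5 : 0 ≤ |Real.sin ((a + b) / 2)| := abs_nonneg _
  nlinarith

theorem norm_Dg_sub_le (a b : Vec n) : ‖Dg a - Dg b‖ ≤ ‖a - b‖ := by
  rw [EuclideanSpace.norm_eq, EuclideanSpace.norm_eq]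
  apply Real.sqrt_le_sqrt
  apply Finset.sum_le_sum
  intro i _
  apply pow_le_pow_left₀ (norm_nonneg _)
  simp only [Dg, PiLp.sub_apply, Real.norm_eq_abs]
  rw [← sub_div, abs_div, abs_of_pos (by positivity : (0 : ℝ) < 2 * Real.pi),
    div_le_iff₀ (by positivity)]
  calc |Real.sin (2 * Real.pi * a i) - Real.sin (2 * Real.pi * b i)|
      ≤ |2 * Real.pi * a i - 2 * Real.pi * b i| := abs_sin_sub_le _ _
    _ = |a i - b i| * (2 * Real.pi) := by
        rw [← mul_sub, abs_mul, abs_of_pos (by positivity : (0 : ℝ) < 2 * Real.pi), mul_comm]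

theorem Dg_zero : Dg (0 : Vec n) = 0 := by
  ext i; simp [Dg]

theorem Dg_neg (x : Vec n) : Dg (-x) = - Dg x := by
  ext i; simp [Dg, neg_div]

theorem norm_Dg_le (a : Vec n) : ‖Dg a‖ ≤ ‖a‖ := by
  have := norm_Dg_sub_le a 0
  simpa [Dg_zero] using this

theorem coord_le (x : Vec n) (i : Fin n) : |x i| ≤ ‖x‖ := by
  have := PiLp.norm_apply_le x i
  simpa using this

theorem abs_g_sub_le (a b : Vec n) : |g a - g b| ≤ n * ‖a - b‖ := by
  unfold g
  rw [← Finset.sum_sub_distrib]
  refine (Finset.abs_sum_le_sum_abs _ _).trans ?_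
  calc ∑ i, |(1 - Real.cos (2 * Real.pi * a i)) / (4 * Real.pi ^ 2) -
        (1 - Real.cos (2 * Real.pi * b i)) / (4 * Real.pi ^ 2)| ≤ ∑ _i : Fin n, ‖a - b‖ := by
        apply Finset.sum_le_sum
        intro i _
        rw [← sub_div, abs_div, abs_of_pos (by positivity : (0 : ℝ) < 4 * Real.pi ^ 2),
          div_le_iff₀ (by positivity)]
        have h1 : 1 - Real.cos (2 * Real.pi * a i) - (1 - Real.cos (2 * Real.pi * b i)) =
          -(Real.cos (2 * Real.pi * a i) - Real.cos (2 * Real.pi * b i)) := by ring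
        rw [h1, abs_neg]
        have h2 := abs_cos_sub_le (2 * Real.pi * a i) (2 * Real.pi * b i)
        have h3 : |2 * Real.pi * a i - 2 * Real.pi * b i| = 2 * Real.pi * |a i - b i| := by
          rw [← mul_sub, abs_mul, abs_of_pos (by positivity : (0 : ℝ) < 2 * Real.pi)]
        have h4 : |a i - b i| ≤ ‖a - b‖ := by simpa using coord_le (a - b) i
        have h5 := Real.pi_gt_three
        have h6 : 0 ≤ ‖a - b‖ := norm_nonneg _
        rw [h3] at h2
        calc _ ≤ 2 * Real.pi * |a i - b i| := h2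
          _ ≤ 2 * Real.pi * ‖a - b‖ := mul_le_mul_of_nonneg_left h4 (by positivity)
          _ ≤ ‖a - b‖ * (4 * Real.pi ^ 2) := by nlinarith [mul_nonneg h6 Real.pi_pos.le]
    _ = n * ‖a - b‖ := by simp

theorem g_nonneg (x : Vec n) : 0 ≤ g x := by
  unfold g
  apply Finset.sum_nonneg
  intro i _
  have := Real.cos_le_one (2 * Real.pi * x i)
  apply div_nonneg (by linarith) (by positivity)

theorem g_zero : g (0 : Vec n) = 0 := by simp [g]

theorem g_neg (x : Vec n) : g (-x) = g x := by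
  simp [g]

theorem gT_nonneg (z : Torus n) : 0 ≤ gT z := by
  obtain ⟨x, rfl⟩ := proj_surjective z
  rw [gT_proj]; exact g_nonneg x

/-- lift of a torus point close to `y` -/
theorem exists_lift (z : Torus n) (y : Vec n) :
    ∃ x : Vec n, proj x = z ∧ ‖x - y‖ ^ 2 ≤ 5 * g (x - y) := by
  obtain ⟨x0, rfl⟩ := proj_surjective z
  set k : Fin n → ℤ := fun i => round (x0 i - y i) with hk
  refine ⟨WithLp.toLp 2 (fun i => x0 i - k i), ?_, ?_⟩
  · funext i
    show ((x0 i - k i : ℝ) : UnitAddCircle) = ((x0 i : ℝ) : UnitAddCircle)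
    rw [AddCircle.coe_sub]
    have : ((k i : ℝ) : UnitAddCircle) = 0 := by
      rw [AddCircle.coe_eq_zero_iff]; exact ⟨k i, by simp⟩
    rw [this, sub_zero]
  · rw [EuclideanSpace.norm_sq_eq]
    unfold g
    rw [Finset.mul_sum]
    apply Finset.sum_le_sum
    intro i _
    simp only [PiLp.sub_apply, Real.norm_eq_abs, sq_abs]
    set t : ℝ := x0 i - k i - y i with ht
    have h1 : |t| ≤ 1 / 2 := by
      have := abs_sub_round (x0 i - y i)
      rw [ht, sub_right_comm]; exact this
    have h2 : |2 * Real.pi * t| ≤ Real.pi := by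
      rw [abs_mul, abs_of_pos (by positivity : (0 : ℝ) < 2 * Real.pi)]
      nlinarith [Real.pi_pos]
    have h3 := Real.cos_le_one_sub_mul_cos_sq h2
    have h4 : 2 / Real.pi ^ 2 * (2 * Real.pi * t) ^ 2 = 8 * t ^ 2 := by
      field_simp; ring
    rw [h4] at h3
    rw [mul_div_assoc', le_div_iff₀ (by positivity)]
    have h5 : Real.pi ^ 2 ≤ 10 := by
      nlinarith [Real.pi_lt_d2, Real.pi_gt_three]
    nlinarith [sq_nonneg t]

/-- a finite net -/
theorem exists_net {θ : ℝ} (hθ : 0 < θ) : ∃ t : Finset (Vec n),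
    ∀ z : Torus n, ∃ y ∈ t, ∃ x : Vec n, proj x = z ∧ ‖x - y‖ < θ := by
  obtain ⟨t, ht⟩ := isCompact_univ.elim_finite_subcover
    (fun y : Vec n => proj '' ball y θ)
    (fun y => isOpenQuotientMap_proj.isOpenMap _ isOpen_ball) (by
      intro z _
      obtain ⟨x, rfl⟩ := proj_surjective z
      rw [mem_iUnion]
      exact ⟨x, x, mem_ball_self hθ, rfl⟩)
  refine ⟨t, fun z => ?_⟩
  have h1 := ht (mem_univ z)
  rw [mem_iUnion₂] at h1
  obtain ⟨y, hy, x, hx, rfl⟩ := h1
  exact ⟨y, hy, x, rfl, by rwa [mem_ball, dist_eq_norm] at hx⟩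

/-- uniform continuity of the Hamiltonian on bounded sets -/
theorem unif_cont {H : Torus n → Vec n → ℝ}
    (hH : Continuous (fun q : Torus n × Vec n => H q.1 q.2)) (R : ℝ) {δ : ℝ} (hδ : 0 < δ) :
    ∃ β : ℝ, 0 < β ∧ ∀ (x x' p p' : Vec n), ‖p‖ ≤ R → ‖p'‖ ≤ R → ‖x - x'‖ ≤ β → ‖p - p'‖ ≤ β →
      |H (proj x) p - H (proj x') p'| ≤ δ := by
  have hc : IsCompact ((univ : Set (Torus n)) ×ˢ closedBall (0 : Vec n) R) :=
    isCompact_univ.prod (isCompact_closedBall _ _)
  have hu := hc.uniformContinuousOn_of_continuous hH.continuousOn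
  rw [Metric.uniformContinuousOn_iff] at hu
  obtain ⟨β, hβ, h⟩ := hu δ hδ
  refine ⟨β / 2, by positivity, fun x x' p p' hp hp' hx hpp => ?_⟩
  have h1 := h (proj x, p) ⟨mem_univ _, by simpa using hp⟩ (proj x', p')
    ⟨mem_univ _, by simpa using hp'⟩ (by
      rw [Prod.dist_eq, max_lt_iff]
      constructor
      · refine lt_of_le_of_lt ?_ (by linarith : ‖x - x'‖ < β)
        rw [dist_eq_norm, ← proj_sub, pi_norm_le_iff_of_nonneg (norm_nonneg _)]
        intro i
        show ‖(((x - x') i : ℝ) : UnitAddCircle)‖ ≤ _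
        refine le_trans ?_ (coord_le (x - x') i)
        exact QuotientAddGroup.norm_mk_le_norm
      · show dist p p' < β
        rw [dist_eq_norm]; linarith)
  rw [Real.dist_eq] at h1
  exact h1.le

end Pool.Agent.Y699.HJ
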