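import Mathlib
import Pool.Agent.Y699.HJ.Basic

set_option autoImplicit false

open Set Filter Topology Metric

namespace Pool.Agent.Y699.HJ

open Pool.Agent.Results.MP_12cf7c_an.WholeClass

variable {n : ℕ}

/-- a finite maximum of `C¹` functions `P j`, `j ∈ t`, such that the active ones satisfy
`H(x, DP_j(x) + p) ≤ l` for all `|p| ≤ s` -/
structure FM (H : Torus n → Vec n → ℝ) (l s : ℝ) (t : Finset (Vec n)) (P : Vec n → Torus n → ℝ)
    (D : Vec n → Vec n → Vec n) : Prop where
  ne : t.Nonempty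
  cont : ∀ j ∈ t, Continuous (P j)
  smooth : ∀ j ∈ t, ContDiff ℝ 1 (fun x : Vec n => P j (proj x))
  grad : ∀ j ∈ t, ∀ x, HasGradientAt (fun x : Vec n => P j (proj x)) (D j x) x
  le : ∀ x, ∀ j ∈ t, (∀ i ∈ t, P i (proj x) ≤ P j (proj x)) → ∀ p : Vec n, ‖p‖ ≤ s →
    H (proj x) (D j x + p) ≤ l

theorem gT_sub_sub_le (W : Torus n) (x1 x2 : Vec n) :
    |gT (W - proj x1) - gT (W - proj x2)| ≤ n * ‖x1 - x2‖ := by
  obtain ⟨w, rfl⟩ := proj_surjective W
  rw [← proj_sub, ← proj_sub, gT_proj, gT_proj]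
  refine (abs_g_sub_le _ _).trans (le_of_eq ?_)
  congr 1
  rw [← norm_neg]; congr 1; abel

theorem hasGradientAt_P (K c : ℝ) (X y x : Vec n) :
    HasGradientAt (fun x : Vec n => c - K * g (X - x) - K * g (x - y))
      (K • Dg (X - x) - K • Dg (x - y)) x := by
  have h1 := (hasGradientAt_iff_hasFDerivAt.1 (hasGradientAt_g (X - x)))
  have h2 := (hasGradientAt_iff_hasFDerivAt.1 (hasGradientAt_g (x - y)))
  have h3 := h1.comp x ((hasFDerivAt_id x).const_sub X)
  have h4 := h2.comp x ((hasFDerivAt_id x).sub_const y)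
  have h5 := ((h3.const_mul K).const_sub c).sub (h4.const_mul K)
  rw [hasGradientAt_iff_hasFDerivAt]
  refine HasFDerivAt.congr_fderiv h5 ?_
  ext v
  simp

theorem key {H : Torus n → Vec n → ℝ} (hH : Continuous (fun q : Torus n × Vec n => H q.1 q.2))
    {Λ δ : ℝ} (hΛ : 0 < Λ) (hδ : 0 < δ) :
    ∃ K s : ℝ, 0 < K ∧ 0 < s ∧ ∃ t : Finset (Vec n), ∀ (u : Torus n → ℝ), Continuous u →
      (∀ x y : Vec n, u (proj y) - u (proj x) ≤ Λ * ‖y - x‖) → ∀ l : ℝ,
      (∀ y ∈ t, ∀ z : Torus n,
        (∀ z', u z' - K * gT (z' - proj y) ≤ u z - K * gT (z - proj y)) →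
          H z (K • DgT (z - proj y)) ≤ l) →
      ∃ P D, FM H (l + δ) s t P D := by
  obtain ⟨β₀, hβ₀, hβ⟩ := unif_cont hH (5 * Λ + 2) hδ
  set β : ℝ := min β₀ 1 with hβdef
  have hβpos : 0 < β := lt_min hβ₀ one_pos
  have hβle : β ≤ β₀ := min_le_left _ _
  have hβ1 : β ≤ 1 := min_le_right _ _
  set K : ℝ := 10 * Λ / β with hK
  have hKpos : 0 < K := by positivity
  have hK2 : 5 * Λ / K = β / 2 := by
    rw [hK]; field_simp; norm_num
  set ρ : ℝ := min (β / 2) (β / (4 * K)) with hρ
  have hρpos : 0 < ρ := lt_min (by positivity) (by positivity)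
  have hρ1 : ρ ≤ β / 2 := min_le_left _ _
  have hρ2 : 2 * K * ρ ≤ β / 2 := by
    have h1 : ρ ≤ β / (4 * K) := min_le_right _ _
    rw [le_div_iff₀ (by positivity)] at h1
    linarith
  set θ : ℝ := ρ ^ 2 / (15 * (n + 1)) with hθ
  have hθpos : 0 < θ := by positivity
  have hθ2 : 15 * (n * θ) ≤ ρ ^ 2 := by
    have h1 : 15 * ((n + 1) * θ) = ρ ^ 2 := by
      rw [hθ]; field_simp
    nlinarith
  obtain ⟨t, ht⟩ := exists_net (n := n) hθpos
  refine ⟨K, β / 2, hKpos, by positivity, t, ?_⟩
  intro u huc hu l hl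
  -- maximum points
  have hmax : ∀ z : Torus n, ∃ w : Torus n, ∀ z', u z' - K * gT (z' - z) ≤ u w - K * gT (w - z) := by
    intro z
    have hc : Continuous (fun w : Torus n => u w - K * gT (w - z)) :=
      huc.sub (continuous_const.mul (continuous_gT.comp (continuous_id.sub continuous_const)))
    obtain ⟨w, -, hw⟩ := isCompact_univ.exists_isMaxOn (univ_nonempty (α := Torus n))
      hc.continuousOn
    exact ⟨w, fun z' => hw (mem_univ z')⟩
  choose W hW using hmax
  set M : Torus n → ℝ := fun z => u (W z) - K * gT (W z - z) with hM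
  have hlift : ∀ y : Vec n, ∃ x : Vec n, proj x = W (proj y) ∧ ‖x - y‖ ^ 2 ≤ 5 * g (x - y) :=
    fun y => exists_lift _ y
  choose X hX hX2 using hlift
  have hXle : ∀ y, ‖X y - y‖ ≤ β / 2 := by
    intro y
    have h1 := hW (proj y) (proj y)
    have h2 : gT (proj y - proj y) = 0 := by rw [← proj_sub, sub_self, gT_proj, g_zero]
    have h3 : gT (W (proj y) - proj y) = g (X y - y) := by rw [← hX y, ← proj_sub, gT_proj]
    rw [h2, h3, ← hX y] at h1
    have h4 := hu y (X y)
    have h5 := hX2 y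
    have h6 : K * ‖X y - y‖ ^ 2 ≤ 5 * Λ * ‖X y - y‖ := by
      have h7 := mul_le_mul_of_nonneg_left h5 hKpos.le
      linarith
    rcases eq_or_lt_of_le (norm_nonneg (X y - y)) with h7 | h7
    · rw [← h7]; positivity
    · have h8 : K * ‖X y - y‖ ≤ 5 * Λ := by
        by_contra hcon
        push Not at hcon
        have := mul_lt_mul_of_pos_right hcon h7
        nlinarith
      rw [← hK2, le_div_iff₀ hKpos]; linarith
  have hXK : ∀ y, K * ‖X y - y‖ ≤ 5 * Λ := by
    intro y
    have h1 := mul_le_mul_of_nonneg_left (hXle y) hKpos.le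
    have h2 : K * (β / 2) = 5 * Λ := by rw [← hK2]; field_simp
    linarith
  refine ⟨fun y z => u (W (proj y)) - K * gT (W (proj y) - z) - K * gT (z - proj y),
    fun y x => K • Dg (X y - x) - K • Dg (x - y), ?_⟩
  have hform : ∀ y x : Vec n, u (W (proj y)) - K * gT (W (proj y) - proj x) -
      K * gT (proj x - proj y) = u (W (proj y)) - K * g (X y - x) - K * g (x - y) := by
    intro y x
    rw [← hX y, ← proj_sub, ← proj_sub, gT_proj, gT_proj]
  have hDper : ∀ y x x' : Vec n, proj x = proj x' →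
      K • Dg (X y - x) - K • Dg (x - y) = K • Dg (X y - x') - K • Dg (x' - y) := by
    intro y x x' h
    rw [← DgT_proj, ← DgT_proj, ← DgT_proj, ← DgT_proj, proj_sub, proj_sub, proj_sub, proj_sub, h]
  refine ⟨?_, ?_, ?_, ?_, ?_⟩
  · obtain ⟨y, hy, -⟩ := ht (proj 0)
    exact ⟨y, hy⟩
  · intro j _
    have h1 : Continuous (fun z : Torus n => gT (W (proj j) - z)) :=
      continuous_gT.comp (continuous_const.sub continuous_id)
    have h2 : Continuous (fun z : Torus n => gT (z - proj j)) :=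
      continuous_gT.comp (continuous_id.sub continuous_const)
    exact (continuous_const.sub (continuous_const.mul h1)).sub (continuous_const.mul h2)
  · intro j _
    simp only [hform]
    have h1 : ContDiff ℝ 1 (fun x : Vec n => g (X j - x)) :=
      contDiff_g.comp (contDiff_const.sub contDiff_id)
    have h2 : ContDiff ℝ 1 (fun x : Vec n => g (x - j)) :=
      contDiff_g.comp (contDiff_id.sub contDiff_const)
    exact (contDiff_const.sub (contDiff_const.mul h1)).sub (contDiff_const.mul h2)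
  · intro j _ x
    simp only [hform]
    exact hasGradientAt_P K _ _ _ _
  · intro x j hj hact p hp
    obtain ⟨y, hy, x', hx', hxy⟩ := ht (proj x)
    have hact1 := hact y hy
    set z := proj x with hz
    -- lower bound for `P y z`
    have h1 : |gT (W (proj y) - proj y) - gT (W (proj y) - z)| ≤ n * θ := by
      rw [← hx']
      refine (gT_sub_sub_le _ _ _).trans ?_
      rw [norm_sub_rev]
      exact mul_le_mul_of_nonneg_left hxy.le (Nat.cast_nonneg _)
    have h2 : gT (z - proj y) ≤ n * θ := by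
      rw [← hx', ← proj_sub, gT_proj]
      have h3 := abs_g_sub_le (x' - y) 0
      rw [g_zero, sub_zero, sub_zero] at h3
      exact (le_abs_self _).trans (h3.trans
        (mul_le_mul_of_nonneg_left hxy.le (Nat.cast_nonneg _)))
    have h3 : M z - K * (n * θ) ≤ M (proj y) := by
      have h4 := hW (proj y) (W z)
      have h5 : |gT (W z - proj y) - gT (W z - z)| ≤ n * θ := by
        rw [← hx']
        refine (gT_sub_sub_le _ _ _).trans ?_
        rw [norm_sub_rev]
        exact mul_le_mul_of_nonneg_left hxy.le (Nat.cast_nonneg _)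
      have h6 := mul_le_mul_of_nonneg_left ((abs_le.1 h5).2) hKpos.le
      simp only [hM]
      linarith
    have h4 := hW z (W (proj j))
    have h5 : K * gT (z - proj j) ≤ K * (3 * (n * θ)) := by
      have h6 := mul_le_mul_of_nonneg_left ((abs_le.1 h1).1) hKpos.le
      have h7 := mul_le_mul_of_nonneg_left h2 hKpos.le
      simp only [hM] at h3
      linarith
    have h6 : gT (z - proj j) ≤ 3 * (n * θ) := le_of_mul_le_mul_left h5 hKpos
    obtain ⟨x2, hx2, hx3⟩ := exists_lift z j
    rw [← gT_proj, proj_sub, hx2] at hx3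
    have h7 : ‖x2 - j‖ ≤ ρ := by
      apply le_of_sq_le_sq _ hρpos.le
      linarith
    show H z (K • Dg (X j - x) - K • Dg (x - j) + p) ≤ l + δ
    rw [hDper j x x2 (by rw [hx2])]
    have h8 := hl j hj (W (proj j)) (hW (proj j))
    rw [← hX j, ← proj_sub, DgT_proj] at h8
    have hp1 : ‖K • Dg (X j - j)‖ ≤ 5 * Λ := by
      rw [norm_smul, Real.norm_eq_abs, abs_of_pos hKpos]
      exact (mul_le_mul_of_nonneg_left (norm_Dg_le _) hKpos.le).trans (hXK j)
    have hp2 : ‖K • Dg (X j - x2) - K • Dg (x2 - j) + p - K • Dg (X j - j)‖ ≤ β := by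
      have e1 : K • Dg (X j - x2) - K • Dg (x2 - j) + p - K • Dg (X j - j) =
          K • (Dg (X j - x2) - Dg (X j - j)) - K • Dg (x2 - j) + p := by
        rw [smul_sub]; abel
      rw [e1]
      have e2 : ‖K • (Dg (X j - x2) - Dg (X j - j))‖ ≤ K * ρ := by
        rw [norm_smul, Real.norm_eq_abs, abs_of_pos hKpos]
        apply mul_le_mul_of_nonneg_left _ hKpos.le
        refine (norm_Dg_sub_le _ _).trans ?_
        have e3 : X j - x2 - (X j - j) = -(x2 - j) := by abel
        rw [e3, norm_neg]; exact h7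
      have e3 : ‖K • Dg (x2 - j)‖ ≤ K * ρ := by
        rw [norm_smul, Real.norm_eq_abs, abs_of_pos hKpos]
        exact mul_le_mul_of_nonneg_left ((norm_Dg_le _).trans h7) hKpos.le
      have e4 := norm_add_le (K • (Dg (X j - x2) - Dg (X j - j)) - K • Dg (x2 - j)) p
      have e5 := norm_sub_le (K • (Dg (X j - x2) - Dg (X j - j))) (K • Dg (x2 - j))
      linarith
    have hp3 : ‖K • Dg (X j - x2) - K • Dg (x2 - j) + p‖ ≤ 5 * Λ + 2 := by
      have e1 := norm_add_le (K • Dg (X j - x2) - K • Dg (x2 - j) + p - K • Dg (X j - j))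
        (K • Dg (X j - j))
      rw [sub_add_cancel] at e1
      linarith
    have hx4 : ‖x2 - X j‖ ≤ β := by
      have e1 : x2 - X j = (x2 - j) - (X j - j) := by abel
      rw [e1]
      have e2 := norm_sub_le (x2 - j) (X j - j)
      have := hXle j
      linarith
    have h9 := hβ x2 (X j) _ _ hp3 (by linarith) (hx4.trans hβle) (hp2.trans hβle)
    rw [hx2] at h9
    have := (abs_le.1 h9).2
    linarith

end Pool.Agent.Y699.HJ
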