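import Mathlib
import Pool.Agent.Y699.HJ.Basic

set_option autoImplicit false

open Set Filter Topology Metric BoundedContinuousFunction

namespace Pool.Agent.Y699.HJ

open Pool.Agent.Results.MP_12cf7c_an.WholeClass

variable {n : ℕ}

theorem open_box {O : Set (Torus n × Vec n)} (hO : IsOpen O) {x p : Vec n} (h : (proj x, p) ∈ O) :
    ∃ ρ : ℝ, 0 < ρ ∧ ∀ y q : Vec n, ‖y - x‖ ≤ ρ → ‖q - p‖ ≤ ρ → (proj y, q) ∈ O := by
  have hm : Continuous (fun r : Vec n × Vec n => ((proj r.1, r.2) : Torus n × Vec n)) :=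
    (proj_continuous.comp continuous_fst).prodMk continuous_snd
  have h1 : IsOpen ((fun r : Vec n × Vec n => ((proj r.1, r.2) : Torus n × Vec n)) ⁻¹' O) :=
    hO.preimage hm
  obtain ⟨ε, hε, hb⟩ := Metric.isOpen_iff.1 h1 (x, p) h
  refine ⟨ε / 2, by positivity, fun y q hy hq => ?_⟩
  have h2 : ((y, q) : Vec n × Vec n) ∈ ball ((x, p) : Vec n × Vec n) ε := by
    rw [mem_ball, Prod.dist_eq, max_lt_iff, dist_eq_norm, dist_eq_norm]
    constructor
    · show ‖y - x‖ < ε
      linarith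
    · show ‖q - p‖ < ε
      linarith
  exact hb h2

theorem sq_le_g (w : Vec n) (h : ‖w‖ ≤ 1 / 2) : ‖w‖ ^ 2 ≤ 5 * g w := by
  rw [EuclideanSpace.norm_sq_eq]
  unfold g
  rw [Finset.mul_sum]
  apply Finset.sum_le_sum
  intro i _
  simp only [Real.norm_eq_abs, sq_abs]
  have h1 : |w i| ≤ 1 / 2 := (coord_le w i).trans h
  have h2 : |2 * Real.pi * w i| ≤ Real.pi := by
    rw [abs_mul, abs_of_pos (by positivity : (0 : ℝ) < 2 * Real.pi)]
    nlinarith [Real.pi_pos]
  have h3 := Real.cos_le_one_sub_mul_cos_sq h2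
  have h4 : 2 / Real.pi ^ 2 * (2 * Real.pi * w i) ^ 2 = 8 * (w i) ^ 2 := by
    field_simp; ring
  rw [h4] at h3
  rw [mul_div_assoc', le_div_iff₀ (by positivity)]
  have h5 : Real.pi ^ 2 ≤ 10 := by
    nlinarith [Real.pi_lt_d2, Real.pi_gt_three]
  nlinarith [sq_nonneg (w i)]

/-- normalised Lipschitz functions -/
def AL (Λ : ℝ) : Set (Torus n →ᵇ ℝ) :=
  {f | (∀ x y : Vec n, f (proj y) - f (proj x) ≤ Λ * ‖y - x‖) ∧ f (proj 0) = 0}

theorem isClosed_AL (Λ : ℝ) : IsClosed (AL (n := n) Λ) := by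
  have h1 : AL (n := n) Λ = (⋂ (x : Vec n) (y : Vec n),
      {f : Torus n →ᵇ ℝ | f (proj y) - f (proj x) ≤ Λ * ‖y - x‖}) ∩ {f | f (proj 0) = 0} := by
    ext f
    simp [AL]
  rw [h1]
  refine IsClosed.inter (isClosed_iInter fun x => isClosed_iInter fun y => ?_) ?_
  · exact isClosed_le ((continuous_eval_const _).sub (continuous_eval_const _)) continuous_const
  · exact isClosed_eq (continuous_eval_const _) continuous_const

theorem isCompact_AL {Λ : ℝ} (hΛ : 0 < Λ) : IsCompact (AL (n := n) Λ) := by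
  obtain ⟨B, hB⟩ := isCompact_univ.exists_bound_of_continuousOn
    (continuous_gT (n := n)).continuousOn
  set R := Real.sqrt (5 * B) with hR
  have hlift : ∀ z : Torus n, ∃ x : Vec n, proj x = z ∧ ‖x‖ ≤ R := by
    intro z
    obtain ⟨x, hx, hx2⟩ := exists_lift z 0
    rw [sub_zero] at hx2
    refine ⟨x, hx, Real.le_sqrt_of_sq_le ?_⟩
    have h1 := hB z (mem_univ _)
    rw [← hx, gT_proj, Real.norm_eq_abs] at h1
    have h2 := le_abs_self (g x)
    linarith
  apply arzela_ascoli₂ (Icc (-(Λ * R)) (Λ * R)) isCompact_Icc _ (isClosed_AL Λ)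
  · intro f z hf
    obtain ⟨x, rfl, hx⟩ := hlift z
    have h1 := hf.1 0 x
    have h2 := hf.1 x 0
    rw [hf.2] at h1 h2
    simp only [sub_zero] at h1
    rw [norm_sub_rev, sub_zero] at h2
    have h3 := mul_le_mul_of_nonneg_left hx hΛ.le
    constructor <;> linarith
  · intro z0
    rw [Metric.equicontinuousAt_iff_right]
    intro ε hε
    obtain ⟨x0, rfl⟩ := proj_surjective z0
    have hnb : proj '' ball x0 (ε / (2 * Λ)) ∈ 𝓝 (proj x0) :=
      (isOpenQuotientMap_proj.isOpenMap _ isOpen_ball).mem_nhds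
        ⟨x0, mem_ball_self (by positivity), rfl⟩
    filter_upwards [hnb] with z hz f
    obtain ⟨x, hx, rfl⟩ := hz
    rw [mem_ball, dist_eq_norm] at hx
    have h1 := f.2.1 x0 x
    have h2 := f.2.1 x x0
    rw [norm_sub_rev] at h2
    have h3 : Λ * ‖x - x0‖ ≤ ε / 2 := by
      have := mul_le_mul_of_nonneg_left hx.le hΛ.le
      have h4 : Λ * (ε / (2 * Λ)) = ε / 2 := by field_simp
      linarith
    rw [Real.dist_eq, abs_lt]
    constructor <;> linarith

/-- all touching pairs of `u` lie in `Z` -/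
def Touch (Z : Set (Torus n × Vec n)) (u : Torus n → ℝ) : Prop :=
  ∀ (x : Vec n) (φ : Vec n → ℝ), ContDiffAt ℝ 1 φ x →
    IsLocalMax (fun y => u (proj y) - φ y) x → (proj x, gradient φ x) ∈ Z

/-- the normalised Lipschitz functions all touching pairs of which lie in `Z` -/
def Adm (Λ : ℝ) (Z : Set (Torus n × Vec n)) : Set (Torus n →ᵇ ℝ) := {f | f ∈ AL Λ ∧ Touch Z f}

theorem continuousAt_gradient {φ : Vec n → ℝ} {x : Vec n} (hφ : ContDiffAt ℝ 1 φ x) :
    ContinuousAt (gradient φ) x := by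
  have h1 : ContinuousAt (fderiv ℝ φ) x :=
    (hφ.fderiv_right (m := 0) (by norm_num)).continuousAt
  exact (InnerProductSpace.toDual ℝ (Vec n)).symm.continuous.continuousAt.comp h1

theorem isClosed_Adm (Λ : ℝ) {Z : Set (Torus n × Vec n)} (hZ : IsClosed Z) :
    IsClosed (Adm Λ Z) := by
  apply isClosed_of_closure_subset
  intro f hf
  refine ⟨closure_minimal (fun f hf => hf.1) (isClosed_AL Λ) hf, ?_⟩
  intro x φ hφ hmax
  by_contra hcon
  obtain ⟨ρ, hρ, hbox⟩ := open_box hZ.isOpen_compl hcon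
  -- a small radius
  have hev : ∀ᶠ y in 𝓝 x, ContDiffAt ℝ 1 φ y ∧ ‖gradient φ y - gradient φ x‖ ≤ ρ / 2 ∧
      f (proj y) - φ y ≤ f (proj x) - φ x := by
    have h1 := hφ.eventually (by simp)
    have h2 : ∀ᶠ y in 𝓝 x, ‖gradient φ y - gradient φ x‖ ≤ ρ / 2 := by
      have h3 := (continuousAt_gradient hφ) (Metric.ball_mem_nhds _ (by positivity : 0 < ρ / 2))
      filter_upwards [h3] with y hy
      have h4 : dist (gradient φ y) (gradient φ x) < ρ / 2 := hy
      rw [dist_eq_norm] at h4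
      exact h4.le
    filter_upwards [h1, h2, hmax] with y hy1 hy2 hy3
    exact ⟨hy1, hy2, hy3⟩
  obtain ⟨r₀, hr₀, hball⟩ := Metric.eventually_nhds_iff.1 hev
  set r : ℝ := min (min (r₀ / 2) (ρ / 2)) (1 / 2) with hr
  have hrpos : 0 < r := by positivity
  have hr1 : r ≤ r₀ / 2 := (min_le_left _ _).trans (min_le_left _ _)
  have hr2 : r ≤ ρ / 2 := (min_le_left _ _).trans (min_le_right _ _)
  have hr3 : r ≤ 1 / 2 := min_le_right _ _
  obtain ⟨u, hu, hdist⟩ := Metric.mem_closure_iff.1 hf (r ^ 2 / 20) (by positivity)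
  have hclose : ∀ z, |f z - u z| ≤ r ^ 2 / 20 := by
    intro z
    have h1 := (dist_coe_le_dist (f := f) (g := u) z).trans hdist.le
    rwa [Real.dist_eq] at h1
  have hφc : ContinuousOn φ (closedBall x r) := by
    intro y hy
    have h1 := (hball (y := y) (by
      have : dist y x ≤ r := hy
      linarith)).1
    exact h1.continuousAt.continuousWithinAt
  have hcont : ContinuousOn (fun y : Vec n => u (proj y) - (φ y + g (y - x))) (closedBall x r) := by
    have h1 : Continuous (fun y : Vec n => u (proj y)) := u.continuous.comp proj_continuous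
    have h2 : Continuous (fun y : Vec n => g (y - x)) :=
      contDiff_g.continuous.comp (continuous_id.sub continuous_const)
    exact h1.continuousOn.sub (hφc.add h2.continuousOn)
  obtain ⟨y, hy, hymax⟩ := (isCompact_closedBall x r).exists_isMaxOn
    ⟨x, mem_closedBall_self hrpos.le⟩ hcont
  have hyr : ‖y - x‖ ≤ r := by rwa [mem_closedBall, dist_eq_norm] at hy
  have hB := hball (y := y) (by rw [dist_eq_norm]; linarith)
  have h1 : u (proj x) - (φ x + g (x - x)) ≤ u (proj y) - (φ y + g (y - x)) :=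
    hymax (mem_closedBall_self hrpos.le)
  rw [sub_self, g_zero, add_zero] at h1
  have h2 := abs_le.1 (hclose (proj x))
  have h3 := abs_le.1 (hclose (proj y))
  have h4 : g (y - x) ≤ r ^ 2 / 10 := by linarith [hB.2.2, h2.1, h2.2, h3.1, h3.2]
  have h5 := sq_le_g (y - x) (hyr.trans hr3)
  have h6 : ‖y - x‖ ^ 2 ≤ r ^ 2 / 2 := by linarith
  have h7 : ‖y - x‖ < r := by
    apply lt_of_pow_lt_pow_left₀ 2 hrpos.le
    nlinarith [sq_pos_of_pos hrpos]
  have hloc : IsLocalMax (fun y : Vec n => u (proj y) - (φ y + g (y - x))) y := by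
    have h8 : closedBall x r ∈ 𝓝 y := by
      apply Metric.closedBall_mem_nhds_of_mem
      rwa [mem_ball, dist_eq_norm]
    filter_upwards [h8] with y' hy'
    exact hymax hy'
  have hsm : ContDiffAt ℝ 1 (fun y : Vec n => φ y + g (y - x)) y := by
    have h8 : ContDiff ℝ 1 (fun y : Vec n => g (y - x)) :=
      contDiff_g.comp (contDiff_id.sub contDiff_const)
    exact hB.1.add h8.contDiffAt
  have hgrad : gradient (fun y : Vec n => φ y + g (y - x)) y = gradient φ y + Dg (y - x) := by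
    have h8 := hasGradientAt_iff_hasFDerivAt.1 (hB.1.differentiableAt (by norm_num)).hasGradientAt
    have h9 := (hasGradientAt_iff_hasFDerivAt.1 (hasGradientAt_g (y - x))).comp y
      ((hasFDerivAt_id y).sub_const x)
    have h10 := h8.add h9
    have h11 : (InnerProductSpace.toDual ℝ (Vec n)) (gradient φ y) +
        ((InnerProductSpace.toDual ℝ (Vec n)) (Dg (y - x))).comp
          (ContinuousLinearMap.id ℝ (Vec n)) =
        (InnerProductSpace.toDual ℝ (Vec n)) (gradient φ y + Dg (y - x)) := by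
      rw [ContinuousLinearMap.comp_id, map_add]
    rw [h11] at h10
    exact (hasGradientAt_iff_hasFDerivAt.2 h10).gradient
  have hmem := hu.2 y _ hsm hloc
  rw [hgrad] at hmem
  refine hbox y (gradient φ y + Dg (y - x)) (by linarith) ?_ hmem
  have h8 : gradient φ y + Dg (y - x) - gradient φ x =
      (gradient φ y - gradient φ x) + Dg (y - x) := by abel
  rw [h8]
  have h9 := norm_add_le (gradient φ y - gradient φ x) (Dg (y - x))
  have h10 := norm_Dg_le (y - x)
  linarith [hB.2.1]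

theorem isCompact_Adm {Λ : ℝ} (hΛ : 0 < Λ) {Z : Set (Torus n × Vec n)} (hZ : IsClosed Z) :
    IsCompact (Adm Λ Z) :=
  (isCompact_AL hΛ).of_isClosed_subset (isClosed_Adm Λ hZ) fun _ hf => hf.1

/-- minimal admissible closed sets -/
theorem exists_minimal {Λ : ℝ} (hΛ : 0 < Λ) {Z₀ Z₁ : Set (Torus n × Vec n)} (h1 : IsClosed Z₁)
    (h01 : Z₀ ⊆ Z₁) (hne : (Adm Λ Z₁).Nonempty) :
    ∃ Z : Set (Torus n × Vec n), IsClosed Z ∧ Z₀ ⊆ Z ∧ Z ⊆ Z₁ ∧ (Adm Λ Z).Nonempty ∧
      ∀ Z' : Set (Torus n × Vec n), IsClosed Z' → Z₀ ⊆ Z' → Z' ⊆ Z → (Adm Λ Z').Nonempty →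
        Z' = Z := by
  obtain ⟨Z, hZ1, hZmin⟩ := zorn_superset_nonempty
    {Z : Set (Torus n × Vec n) | IsClosed Z ∧ Z₀ ⊆ Z ∧ (Adm Λ Z).Nonempty} (by
      intro c hc hchain hcne
      refine ⟨⋂₀ c, ⟨isClosed_sInter fun s hs => (hc hs).1,
        subset_sInter fun s hs => (hc hs).2.1, ?_⟩, fun s hs => sInter_subset_of_mem hs⟩
      have hmono : ∀ {A B : Set (Torus n × Vec n)}, A ⊆ B → Adm Λ A ⊆ Adm Λ B :=
        fun hAB f hf => ⟨hf.1, fun x φ hφ hm => hAB (hf.2 x φ hφ hm)⟩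
      have : Nonempty c := hcne.coe_sort
      obtain ⟨f, hf⟩ := IsCompact.nonempty_iInter_of_directed_nonempty_isCompact_isClosed
        (fun s : c => Adm Λ (s : Set (Torus n × Vec n))) (by
          intro s t
          rcases hchain.total s.2 t.2 with h | h
          · exact ⟨s, subset_rfl, hmono h⟩
          · exact ⟨t, hmono h, subset_rfl⟩)
        (fun s => (hc s.2).2.2) (fun s => isCompact_Adm hΛ (hc s.2).1)
        (fun s => isClosed_Adm Λ (hc s.2).1)
      rw [mem_iInter] at hf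
      obtain ⟨s0, hs0⟩ := hcne
      exact ⟨f, (hf ⟨s0, hs0⟩).1, fun x φ hφ hm => mem_sInter.2 fun s hs =>
        (hf ⟨s, hs⟩).2 x φ hφ hm⟩)
    Z₁ ⟨h1, h01, hne⟩
  refine ⟨Z, hZmin.prop.1, hZmin.prop.2.1, hZ1, hZmin.prop.2.2, ?_⟩
  intro Z' h1' h2' h3' h4'
  exact subset_antisymm h3' (hZmin.2 ⟨h1', h2', h4'⟩ h3')

end Pool.Agent.Y699.HJ
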