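import Mathlib
import Pool.Agent.Results.MP_12cf7c_an.WholeClass
import Pool.Agent.Results.MP_12cf7c_an.CounterexamplesDense
import Pool.Agent.Y699.HJ.Adm

set_option autoImplicit false

open Set Filter Topology Metric BoundedContinuousFunction

namespace Pool.Agent.Results.MP_12cf7c_an.PositiveDense

open Pool.Agent.Results.MP_12cf7c_an.WholeClass Pool.Agent.Y699.HJ
open Pool.Agent.Results.MP_12cf7c_an.CounterexamplesDense (bump continuous_bump hasGradientAt_bump
  bump_proj gradient_of_isLocalMax exists_slope' levels_nonempty' levels_bddBelow'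
  superlinear_of_close cut cut_nonneg cut_le_one cut_eq_zero cut_eq_one continuous_cut)

variable {n : ℕ}

/-! ### A bump below -/

/-- gradient of `∑ bump i x (q i)` -/
noncomputable def DB (x q : Vec n) (z : Torus n) : Vec n :=
  ∑ i, (q i * cosT (z i - ((x i : ℝ) : UnitAddCircle))) • EuclideanSpace.single i (1 : ℝ)

theorem continuous_DB (x q : Vec n) : Continuous (DB x q) := by
  unfold DB
  refine continuous_finsetSum _ fun i _ => ?_
  exact (continuous_const.mul (continuous_cosT.comp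
    ((continuous_apply i).sub continuous_const))).smul continuous_const

theorem DB_self (x q : Vec n) : DB x q (proj x) = q := by
  unfold DB
  have h1 : ∀ i : Fin n, cosT (proj x i - ((x i : ℝ) : UnitAddCircle)) = 1 := by
    intro i
    have : proj x i - ((x i : ℝ) : UnitAddCircle) = ((0 : ℝ) : UnitAddCircle) := by
      simp [proj]
    rw [this, cosT_coe]; simp
  ext j
  simp [h1, Finset.sum_apply, Pi.single_apply]

theorem hasGradientAt_sum (x q y : Vec n) :
    HasGradientAt (fun y : Vec n => ∑ i, bump i x (q i) (proj y)) (DB x q (proj y)) y := by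
  rw [hasGradientAt_iff_hasFDerivAt]
  have h1 : ∀ i : Fin n, HasFDerivAt (fun y : Vec n => bump i x (q i) (proj y))
      ((InnerProductSpace.toDual ℝ (Vec n))
        ((q i * cosT (proj y i - ((x i : ℝ) : UnitAddCircle))) •
          EuclideanSpace.single i (1 : ℝ))) y := by
    intro i
    have h2 := hasGradientAt_iff_hasFDerivAt.1 (hasGradientAt_bump i x (q i) y)
    have h3 : cosT (proj y i - ((x i : ℝ) : UnitAddCircle)) =
        Real.cos (2 * Real.pi * (y i - x i)) := by
      unfold proj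
      rw [← AddCircle.coe_sub, cosT_coe]
    rw [h3]
    exact h2
  have h2 := HasFDerivAt.fun_sum (u := Finset.univ) (fun i _ => h1 i)
  rw [← map_sum] at h2
  exact h2

theorem exists_bump {T : Torus n → ℝ} {x : Vec n} {φ : Vec n → ℝ} (hφ : ContDiffAt ℝ 1 φ x)
    (hmin : IsLocalMin (fun y => T (proj y) - φ y) x) {κ a₀ : ℝ} (hκ : 0 < κ) (ha₀ : 0 < a₀) :
    ∃ (a : ℝ) (Φ : Torus n → ℝ) (D : Torus n → Vec n), 0 < a ∧ a ≤ a₀ ∧ Continuous Φ ∧
      (∀ y : Vec n, HasGradientAt (fun y : Vec n => Φ (proj y)) (D (proj y)) y) ∧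
      T (proj x) < Φ (proj x) ∧ (∀ z, gT (z - proj x) = a → Φ z ≤ T z) ∧
      ∀ z : Torus n, gT (z - proj x) ≤ a → ∃ y : Vec n, proj y = z ∧ ‖y - x‖ ≤ κ ∧
        ‖D z - gradient φ x‖ ≤ κ := by
  set q := gradient φ x with hq
  set η : ℝ := κ / 40 with hη
  have hηpos : 0 < η := by positivity
  set Θ : Torus n → ℝ := fun z => ∑ i, bump i x (q i) z with hΘ
  have hΘ0 : Θ (proj x) = 0 := by
    simp only [hΘ, bump_proj]
    simp
  -- the error
  have hE : ∀ᶠ y in 𝓝 x, |Θ (proj y) - (φ y - φ x)| ≤ η * ‖y - x‖ := by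
    have h1 := hasGradientAt_iff_hasFDerivAt.1 (hasGradientAt_sum x q x)
    rw [DB_self] at h1
    have h2 := hasGradientAt_iff_hasFDerivAt.1 (hφ.differentiableAt (by norm_num)).hasGradientAt
    have h3 := h1.sub h2
    rw [sub_self] at h3
    have h4 := h3.isLittleO.def hηpos
    filter_upwards [h4] with y hy
    have h5 : Θ (proj y) - (φ y - φ x) = (∑ i, bump i x (q i) (proj y)) - φ y -
        ((∑ i, bump i x (q i) (proj x)) - φ x) := by
      have : (∑ i, bump i x (q i) (proj x)) = 0 := hΘ0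
      rw [this]; simp only [hΘ]; ring
    rw [h5]
    simpa using hy
  have hD : ∀ᶠ y in 𝓝 x, ‖DB x q (proj y) - q‖ ≤ κ / 2 := by
    have h1 : ContinuousAt (fun y => DB x q (proj y)) x :=
      ((continuous_DB x q).comp proj_continuous).continuousAt
    have h2 := h1 (Metric.ball_mem_nhds _ (by positivity : 0 < κ / 2))
    filter_upwards [h2] with y hy
    have h3 : dist (DB x q (proj y)) (DB x q (proj x)) < κ / 2 := hy
    rw [dist_eq_norm, DB_self] at h3
    exact h3.le
  obtain ⟨ρ, hρ, hball⟩ := Metric.eventually_nhds_iff.1 ((hE.and hD).and hmin)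
  set b : ℝ := min (min (ρ / 2) κ) (Real.sqrt (5 * a₀)) with hb
  have hbpos : 0 < b := by
    have : 0 < Real.sqrt (5 * a₀) := Real.sqrt_pos.2 (by positivity)
    positivity
  have hb1 : b ≤ ρ / 2 := (min_le_left _ _).trans (min_le_left _ _)
  have hb2 : b ≤ κ := (min_le_left _ _).trans (min_le_right _ _)
  have hb3 : b ^ 2 ≤ 5 * a₀ := by
    have h1 : b ≤ Real.sqrt (5 * a₀) := min_le_right _ _
    calc b ^ 2 ≤ (Real.sqrt (5 * a₀)) ^ 2 := pow_le_pow_left₀ hbpos.le h1 2
      _ = 5 * a₀ := Real.sq_sqrt (by positivity)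
  have hlift : ∀ z : Torus n, gT (z - proj x) ≤ b ^ 2 / 5 → ∃ y : Vec n, proj y = z ∧
      ‖y - x‖ ≤ b := by
    intro z hz
    obtain ⟨y, hy, hy2⟩ := exists_lift z x
    refine ⟨y, hy, ?_⟩
    rw [← gT_proj, proj_sub, hy] at hy2
    apply le_of_sq_le_sq _ hbpos.le
    linarith
  refine ⟨b ^ 2 / 5, fun z => T (proj x) + Θ z - (10 * η / b) * gT (z - proj x) + η * b,
    fun z => DB x q z - (10 * η / b) • DgT (z - proj x), by positivity, by linarith, ?_, ?_, ?_,
    ?_, ?_⟩
  · have h1 : Continuous Θ := by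
      simp only [hΘ]
      exact continuous_finsetSum _ fun i _ => continuous_bump i x (q i)
    have h2 : Continuous (fun z : Torus n => gT (z - proj x)) :=
      continuous_gT.comp (continuous_id.sub continuous_const)
    exact ((continuous_const.add h1).sub (continuous_const.mul h2)).add continuous_const
  · intro y
    have h1 := hasGradientAt_iff_hasFDerivAt.1 (hasGradientAt_sum x q y)
    have h2 := ((hasGradientAt_iff_hasFDerivAt.1 (hasGradientAt_g (y - x))).comp y
      ((hasFDerivAt_id y).sub_const x)).const_mul (10 * η / b)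
    have h3 := ((h1.const_add (T (proj x))).sub h2).add_const (η * b)
    rw [hasGradientAt_iff_hasFDerivAt]
    have h4 : (fun y : Vec n => T (proj x) + Θ (proj y) - (10 * η / b) * gT (proj y - proj x) +
        η * b) = fun y : Vec n => T (proj x) + ∑ i, bump i x (q i) (proj y) -
          (10 * η / b) * g (y - x) + η * b := by
      funext y
      rw [← proj_sub, gT_proj]
    rw [h4]
    refine HasFDerivAt.congr_fderiv h3 ?_
    show _ = (InnerProductSpace.toDual ℝ (Vec n)) (DB x q (proj y) -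
      (10 * η / b) • DgT (proj y - proj x))
    rw [← proj_sub, DgT_proj]
    ext v
    simp
  · have h1 : gT (proj x - proj x) = 0 := by rw [← proj_sub, sub_self, gT_proj, g_zero]
    simp only [h1, hΘ0]
    have : 0 < η * b := by positivity
    linarith
  · intro z hz
    obtain ⟨y, hy, hyb⟩ := hlift z hz.le
    have h1 := hball (y := y) (by rw [dist_eq_norm]; linarith)
    obtain ⟨⟨h2, -⟩, h3⟩ := h1
    have h4 := (abs_le.1 h2).2
    rw [← hy] at hz
    have h3' : T (proj x) - φ x ≤ T (proj y) - φ y := h3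
    have h5 : η * ‖y - x‖ ≤ η * b := mul_le_mul_of_nonneg_left hyb hηpos.le
    have h6 : (10 * η / b) * (b ^ 2 / 5) = 2 * (η * b) := by field_simp; norm_num
    rw [← hy]
    simp only [hz, h6]
    linarith
  · intro z hz
    obtain ⟨y, hy, hyb⟩ := hlift z hz
    refine ⟨y, hy, hyb.trans hb2, ?_⟩
    have h1 := hball (y := y) (by rw [dist_eq_norm]; linarith)
    have h2 := h1.1.2
    have h3 : ‖(10 * η / b) • DgT (z - proj x)‖ ≤ κ / 4 := by
      rw [← hy, ← proj_sub, DgT_proj, norm_smul, Real.norm_eq_abs,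
        abs_of_pos (by positivity : 0 < 10 * η / b)]
      have h4 := (norm_Dg_le (y - x)).trans hyb
      calc 10 * η / b * ‖Dg (y - x)‖ ≤ 10 * η / b * b :=
            mul_le_mul_of_nonneg_left h4 (by positivity)
        _ = κ / 4 := by rw [hη]; field_simp; norm_num
    have h4 : DB x q z - (10 * η / b) • DgT (z - proj x) - q =
        (DB x q z - q) - (10 * η / b) • DgT (z - proj x) := by abel
    show ‖DB x q z - (10 * η / b) • DgT (z - proj x) - q‖ ≤ κ
    rw [h4]
    have h5 := norm_sub_le (DB x q z - q) ((10 * η / b) • DgT (z - proj x))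
    rw [← hy] at h5 h3 ⊢
    linarith

/-! ### Doors -/

theorem norm_adm {Λ : ℝ} {Z : Set (Torus n × Vec n)} {u : Torus n → ℝ} (hu : Continuous u)
    (hl : ∀ x y : Vec n, u (proj y) - u (proj x) ≤ Λ * ‖y - x‖) (ht : Touch Z u) :
    ∃ f ∈ Adm Λ Z, ∀ z, f z = u z - u (proj 0) := by
  refine ⟨BoundedContinuousFunction.mkOfCompact ⟨fun z => u z - u (proj 0),
    hu.sub continuous_const⟩, ⟨⟨fun x y => ?_, ?_⟩, fun x φ hφ hmax => ht x φ hφ ?_⟩, fun z => rfl⟩
  · show (u (proj y) - u (proj 0)) - (u (proj x) - u (proj 0)) ≤ _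
    have := hl x y
    linarith
  · show u (proj 0) - u (proj 0) = 0
    ring
  · filter_upwards [hmax] with y hy
    have h1 : (u (proj y) - u (proj 0)) - φ y ≤ (u (proj x) - u (proj 0)) - φ x := hy
    linarith

/-- If every critical subsolution has touching pairs arbitrarily close to the door `(z₁, p₁)`,
then `S_{z₁}` is a solution. -/
theorem solution_of_door {H : Torus n → Vec n → ℝ}
    (hH : Continuous (fun q : Torus n × Vec n => H q.1 q.2)) {c Λ : ℝ} (hΛ : 0 < Λ)
    (hc : critical H = c)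
    (hlip : ∀ u, IsSubsolution H c u → ∀ x y : Vec n, u (proj y) - u (proj x) ≤ Λ * ‖y - x‖)
    (hex : ∃ u, IsSubsolution H c u) (z₁ : Torus n) (p₁ : Vec n) (hp₁ : c ≤ H z₁ p₁)
    (hdoor : ∀ O : Set (Torus n × Vec n), IsOpen O → (z₁, p₁) ∈ O → ∀ u, IsSubsolution H c u →
      ∃ (x : Vec n) (φ : Vec n → ℝ), ContDiffAt ℝ 1 φ x ∧
        IsLocalMax (fun y => u (proj y) - φ y) x ∧ (proj x, gradient φ x) ∈ O) :
    IsSolution H c (S H z₁) := by
  set Z : Set (Torus n × Vec n) := {q | H q.1 q.2 ≤ c} with hZ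
  have hZc : IsClosed Z := isClosed_le hH continuous_const
  have hadm : ∀ u, IsSubsolution H c u → ∃ f ∈ Adm Λ Z, ∀ z, f z = u z - u (proj 0) :=
    fun u hu => norm_adm hu.1 (hlip u hu) (fun x φ hφ hm => hu.2 x φ hφ hm)
  have hsub : ∀ f ∈ Adm Λ Z, IsSubsolution H c f := fun f hf =>
    ⟨f.continuous, fun x φ hφ hm => hf.2 x φ hφ hm⟩
  obtain ⟨u₀, hu₀⟩ := hex
  obtain ⟨f₀, hf₀, -⟩ := hadm u₀ hu₀
  -- the supremum is attained
  have hatt : ∀ y : Torus n, (∃ u, IsSubsolution H c u ∧ u z₁ = 0 ∧ u y = S H z₁ y) ∧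
      ∀ u, IsSubsolution H c u → u y - u z₁ ≤ S H z₁ y := by
    intro y
    obtain ⟨f, hf, hmax⟩ := (isCompact_Adm hΛ hZc).exists_isMaxOn ⟨f₀, hf₀⟩
      ((continuous_eval_const y).sub (continuous_eval_const z₁)).continuousOn
    have hg : IsGreatest (Increments H z₁ y) (f y - f z₁) := by
      constructor
      · exact ⟨f, by rw [hc]; exact hsub f hf, rfl⟩
      · rintro r ⟨u, hu, rfl⟩
        rw [hc] at hu
        obtain ⟨f', hf', he⟩ := hadm u hu
        have h1 : f' y - f' z₁ ≤ f y - f z₁ := hmax hf'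
        rw [he, he] at h1
        linarith
    have hS : S H z₁ y = f y - f z₁ := hg.csSup_eq
    refine ⟨⟨fun z => f z - f z₁, ?_, by ring, hS.symm⟩, fun u hu => ?_⟩
    · refine ⟨f.continuous.sub continuous_const, fun x φ hφ hm => (hsub f hf).2 x φ hφ ?_⟩
      filter_upwards [hm] with y hy
      linarith
    · rw [hS]
      exact hg.2 ⟨u, by rw [hc]; exact hu, rfl⟩
  have hS1 : S H z₁ z₁ = 0 := by
    obtain ⟨⟨u, hu, h1, h2⟩, -⟩ := hatt z₁
    rw [← h2, h1]
  have hSlip : ∀ x y : Vec n, S H z₁ (proj y) - S H z₁ (proj x) ≤ Λ * ‖y - x‖ := by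
    intro x y
    obtain ⟨⟨u, hu, h1, h2⟩, -⟩ := hatt (proj y)
    have h3 := (hatt (proj x)).2 u hu
    have h4 := hlip u hu x y
    rw [← h2]
    rw [h1] at h3
    linarith
  have hScont : Continuous (S H z₁) := by
    rw [isOpenQuotientMap_proj.isQuotientMap.continuous_iff]
    have h1 : LipschitzWith (Real.toNNReal Λ) (S H z₁ ∘ proj) := by
      apply LipschitzWith.of_le_add_mul'
      intro y x
      have := hSlip x y
      rw [dist_eq_norm]
      show S H z₁ (proj y) ≤ S H z₁ (proj x) + Λ * ‖y - x‖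
      linarith
    exact h1.continuous
  have hSsub : IsSubsolution H c (S H z₁) := by
    refine ⟨hScont, fun x φ hφ hm => ?_⟩
    obtain ⟨⟨u, hu, h1, h2⟩, -⟩ := hatt (proj x)
    refine hu.2 x φ hφ ?_
    filter_upwards [hm] with y hy
    have h3 := (hatt (proj y)).2 u hu
    rw [h1, sub_zero] at h3
    rw [h2]
    linarith
  refine ⟨hSsub, hScont, fun x φ hφ hmin => ?_⟩
  by_contra hcon
  push Not at hcon
  set q := gradient φ x with hq
  obtain ⟨κ₀, hκ₀, hbox⟩ := open_box (isOpen_lt hH continuous_const)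
    (show (proj x, q) ∈ {r : Torus n × Vec n | H r.1 r.2 < c} from hcon)
  -- glueing
  have hglue : ∀ κ a₀ : ℝ, 0 < κ → κ ≤ κ₀ → 0 < a₀ → ∃ (a : ℝ) (Φ : Torus n → ℝ)
      (D : Torus n → Vec n) (v : Torus n → ℝ), 0 < a ∧ a ≤ a₀ ∧ Continuous Φ ∧
      S H z₁ (proj x) < Φ (proj x) ∧ IsSubsolution H c v ∧
      (∀ z, gT (z - proj x) ≤ a → v z = max (S H z₁ z) (Φ z)) ∧
      (∀ z, a < gT (z - proj x) → v z = S H z₁ z) ∧
      (∀ y : Vec n, HasGradientAt (fun y : Vec n => Φ (proj y)) (D (proj y)) y) ∧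
      ∀ z : Torus n, gT (z - proj x) ≤ a → ‖D z - q‖ ≤ κ := by
    intro κ a₀ hκ hκκ ha₀
    obtain ⟨a, Φ, D, ha, haa, hΦc, hΦg, hΦx, hΦb, hΦs⟩ := exists_bump hφ hmin hκ ha₀
    have hGc : Continuous (fun z : Torus n => gT (z - proj x)) :=
      continuous_gT.comp (continuous_id.sub continuous_const)
    classical
    refine ⟨a, Φ, D, fun z => if gT (z - proj x) ≤ a then max (S H z₁ z) (Φ z) else S H z₁ z,
      ha, haa, hΦc, hΦx, ⟨?_, ?_⟩, fun z hz => if_pos hz, fun z hz => if_neg (not_le.2 hz), hΦg,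
      fun z hz => ?_⟩
    · exact Continuous.if_le (hScont.max hΦc) hScont hGc continuous_const
        (fun z hz => max_eq_left (hΦb z hz))
    · intro y ψ hψ hm
      have hge : ∀ z, S H z₁ z ≤ if gT (z - proj x) ≤ a then max (S H z₁ z) (Φ z) else S H z₁ z := by
        intro z
        split_ifs
        · exact le_max_left _ _
        · exact le_rfl
      by_cases hcase : (if gT (proj y - proj x) ≤ a then max (S H z₁ (proj y)) (Φ (proj y)) else
          S H z₁ (proj y)) = S H z₁ (proj y)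
      · refine hSsub.2 y ψ hψ ?_
        filter_upwards [hm] with y' hy'
        have h1 := hge (proj y')
        rw [hcase] at hy'
        linarith
      · have h1 : gT (proj y - proj x) ≤ a := by
          by_contra h2
          exact hcase (if_neg h2)
        rw [if_pos h1] at hcase
        have h2 : S H z₁ (proj y) < Φ (proj y) := by
          by_contra h3
          exact hcase (max_eq_left (not_lt.1 h3))
        have h3 : gT (proj y - proj x) < a := by
          refine lt_of_le_of_ne h1 fun h4 => ?_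
          exact absurd (hΦb _ h4) (not_le.2 h2)
        have h4 : ∀ᶠ y' in 𝓝 y, gT (proj y' - proj x) < a :=
          ((hGc.comp proj_continuous).continuousAt (x := y)).eventually_lt continuousAt_const h3
        have h5 : IsLocalMax (fun y' : Vec n => Φ (proj y') - ψ y') y := by
          filter_upwards [hm, h4] with y' hy' h4'
          rw [if_pos h1, if_pos h4'.le, max_eq_right h2.le] at hy'
          have := le_max_right (S H z₁ (proj y')) (Φ (proj y'))
          linarith
        rw [gradient_of_isLocalMax (hΦg y) hψ h5]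
        obtain ⟨y', hy', h6, h7⟩ := hΦs (proj y) h1
        have h8 := hbox y' (D (proj y)) (h6.trans hκκ) (h7.trans hκκ)
        rw [hy'] at h8
        exact le_of_lt h8
    · obtain ⟨y', hy', h6, h7⟩ := hΦs z hz
      exact h7
  by_cases hx : z₁ = proj x
  · -- the door
    have hqp : q ≠ p₁ := by
      intro h
      rw [← hx, h] at hcon
      linarith
    have hpos : 0 < ‖p₁ - q‖ := norm_pos_iff.2 (sub_ne_zero.2 hqp.symm)
    obtain ⟨a, Φ, D, v, ha, haa, hΦc, hΦx, hv, hv1, hv2, hΦg, hD⟩ :=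
      hglue (min κ₀ (‖p₁ - q‖ / 3)) 1 (lt_min hκ₀ (by positivity)) (min_le_left _ _) one_pos
    have hGc : Continuous (fun z : Torus n => gT (z - proj x)) :=
      continuous_gT.comp (continuous_id.sub continuous_const)
    have o1 : IsOpen {r : Torus n × Vec n | S H z₁ r.1 < Φ r.1} :=
      isOpen_lt (hScont.comp continuous_fst) (hΦc.comp continuous_fst)
    have o2 : IsOpen {r : Torus n × Vec n | gT (r.1 - proj x) < a} :=
      isOpen_lt (hGc.comp continuous_fst) continuous_const
    have o3 : IsOpen {r : Torus n × Vec n | ‖r.2 - p₁‖ < ‖p₁ - q‖ / 3} :=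
      isOpen_lt (continuous_snd.sub continuous_const).norm continuous_const
    obtain ⟨y, ψ, hψ, hm, hO⟩ := hdoor
      {r | S H z₁ r.1 < Φ r.1 ∧ gT (r.1 - proj x) < a ∧ ‖r.2 - p₁‖ < ‖p₁ - q‖ / 3}
      (o1.inter (o2.inter o3)) (by
        refine ⟨?_, ?_, ?_⟩
        · show S H z₁ z₁ < Φ z₁
          rw [hx]; rw [← hx]; rw [hx] at hΦx ⊢; exact hΦx
        · show gT (z₁ - proj x) < a
          rw [hx, ← proj_sub, sub_self, gT_proj, g_zero]; exact ha
        · show ‖p₁ - p₁‖ < _
          rw [sub_self, norm_zero]; positivity) v hv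
    obtain ⟨h1, h2, h3⟩ := hO
    simp only at h1 h2 h3
    have h4 : ∀ᶠ y' in 𝓝 y, gT (proj y' - proj x) < a :=
      ((hGc.comp proj_continuous).continuousAt (x := y)).eventually_lt continuousAt_const h2
    have h5 : IsLocalMax (fun y' : Vec n => Φ (proj y') - ψ y') y := by
      filter_upwards [hm, h4] with y' hy' h4'
      rw [hv1 _ h2.le, hv1 _ h4'.le, max_eq_right h1.le] at hy'
      have := le_max_right (S H z₁ (proj y')) (Φ (proj y'))
      linarith
    rw [gradient_of_isLocalMax (hΦg y) hψ h5] at h3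
    have h6 := (hD _ h2.le).trans (min_le_right _ _)
    have h7 : p₁ - q = (D (proj y) - q) - (D (proj y) - p₁) := by abel
    have h8 := norm_sub_le (D (proj y) - q) (D (proj y) - p₁)
    rw [← h7] at h8
    linarith
  · have hpos : 0 < gT (z₁ - proj x) := by
      refine lt_of_le_of_ne (gT_nonneg _) fun h => ?_
      obtain ⟨y, hy, hy2⟩ := exists_lift z₁ x
      rw [← gT_proj, proj_sub, hy, ← h, mul_zero] at hy2
      have h1 : ‖y - x‖ = 0 := by
        have := sq_nonneg ‖y - x‖
        exact pow_eq_zero_iff (two_ne_zero) |>.1 (le_antisymm hy2 this)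
      rw [norm_eq_zero, sub_eq_zero] at h1
      exact hx (by rw [← hy, h1])
    obtain ⟨a, Φ, D, v, ha, haa, hΦc, hΦx, hv, hv1, hv2, hΦg, hD⟩ :=
      hglue κ₀ (gT (z₁ - proj x) / 2) hκ₀ le_rfl (by positivity)
    have h1 := (hatt (proj x)).2 v hv
    have h2 : v z₁ = 0 := by rw [hv2 z₁ (by linarith), hS1]
    have h3 : v (proj x) = max (S H z₁ (proj x)) (Φ (proj x)) :=
      hv1 _ (by rw [← proj_sub, sub_self, gT_proj, g_zero]; exact ha.le)
    rw [h2, h3, sub_zero] at h1
    have := le_max_right (S H z₁ (proj x)) (Φ (proj x))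
    linarith

/-! ### The perturbation -/

/-- the Hamiltonian with sublevel set `Z` at level `c` -/
noncomputable def Hm (H₀ : Torus n → Vec n → ℝ) (e c : ℝ) (Z : Set (Torus n × Vec n))
    (z : Torus n) (p : Vec n) : ℝ :=
  max (H₀ z p - 2 * e) (min (H₀ z p + 2 * e) (c + infDist ((z, p) : Torus n × Vec n) Z))

theorem continuous_Hm {H₀ : Torus n → Vec n → ℝ}
    (hH : Continuous (fun q : Torus n × Vec n => H₀ q.1 q.2)) (e c : ℝ)
    (Z : Set (Torus n × Vec n)) : Continuous (fun q : Torus n × Vec n => Hm H₀ e c Z q.1 q.2) := by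
  unfold Hm
  have h1 : Continuous (fun q : Torus n × Vec n => infDist q Z) := continuous_infDist_pt Z
  exact (hH.sub continuous_const).max ((hH.add continuous_const).min (continuous_const.add h1))

theorem Hm_close (H₀ : Torus n → Vec n → ℝ) {e : ℝ} (he : 0 < e) (c : ℝ)
    (Z : Set (Torus n × Vec n)) (z : Torus n) (p : Vec n) : |Hm H₀ e c Z z p - H₀ z p| ≤ 2 * e := by
  unfold Hm
  rw [abs_le]
  constructor
  · have := le_max_left (H₀ z p - 2 * e)
      (min (H₀ z p + 2 * e) (c + infDist ((z, p) : Torus n × Vec n) Z))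
    linarith
  · have : max (H₀ z p - 2 * e) (min (H₀ z p + 2 * e)
        (c + infDist ((z, p) : Torus n × Vec n) Z)) ≤ H₀ z p + 2 * e :=
      max_le (by linarith) (min_le_left _ _)
    linarith

/-- `Hm` near the level `c`, and `H₀` away from it -/
noncomputable def Hc (H₀ : Torus n → Vec n → ℝ) (e c : ℝ) (Z : Set (Torus n × Vec n))
    (z : Torus n) (p : Vec n) : ℝ :=
  H₀ z p + cut (2 * e) c (H₀ z p) * (Hm H₀ e c Z z p - H₀ z p)

theorem continuous_Hc {H₀ : Torus n → Vec n → ℝ}
    (hH : Continuous (fun q : Torus n × Vec n => H₀ q.1 q.2)) (e c : ℝ)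
    (Z : Set (Torus n × Vec n)) : Continuous (fun q : Torus n × Vec n => Hc H₀ e c Z q.1 q.2) := by
  unfold Hc
  exact hH.add (((continuous_cut (2 * e) c).comp hH).mul ((continuous_Hm hH e c Z).sub hH))

theorem Hc_close (H₀ : Torus n → Vec n → ℝ) {e : ℝ} (he : 0 < e) (c : ℝ)
    (Z : Set (Torus n × Vec n)) (z : Torus n) (p : Vec n) : |Hc H₀ e c Z z p - H₀ z p| ≤ 2 * e := by
  have h1 : Hc H₀ e c Z z p - H₀ z p =
      cut (2 * e) c (H₀ z p) * (Hm H₀ e c Z z p - H₀ z p) := by unfold Hc; ring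
  rw [h1, abs_mul, abs_of_nonneg (cut_nonneg _ _ _)]
  calc cut (2 * e) c (H₀ z p) * |Hm H₀ e c Z z p - H₀ z p| ≤ 1 * (2 * e) :=
        mul_le_mul (cut_le_one _ _ _) (Hm_close H₀ he c Z z p) (abs_nonneg _) zero_le_one
    _ = 2 * e := one_mul _

theorem Hc_far (H₀ : Torus n → Vec n → ℝ) {e : ℝ} (he : 0 < e) (c : ℝ)
    (Z : Set (Torus n × Vec n)) (z : Torus n) (p : Vec n) (h : 2 * e ≤ |H₀ z p - c|) :
    Hc H₀ e c Z z p = H₀ z p := by
  unfold Hc
  rw [cut_eq_zero (by positivity) h]; ring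

theorem Hc_near (H₀ : Torus n → Vec n → ℝ) {e : ℝ} (he : 0 < e) (c : ℝ)
    (Z : Set (Torus n × Vec n)) (z : Torus n) (p : Vec n) (h : |H₀ z p - c| ≤ e) :
    Hc H₀ e c Z z p = Hm H₀ e c Z z p := by
  unfold Hc
  rw [cut_eq_one (by positivity) (by linarith)]; ring

theorem Hc_sub (H₀ : Torus n → Vec n → ℝ) (e c : ℝ) (Z : Set (Torus n × Vec n)) (z : Torus n)
    (p : Vec n) : Hc H₀ e c Z z p - c = (1 - cut (2 * e) c (H₀ z p)) * (H₀ z p - c) +
      cut (2 * e) c (H₀ z p) * (Hm H₀ e c Z z p - c) := by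
  unfold Hc; ring

/-- **Hamiltonians for which Q1 has a positive answer are dense.**  For every continuous
superlinear Hamiltonian `H₀` on the torus and every `ε > 0` there is a continuous superlinear
Hamiltonian `H` with `|H - H₀| ≤ ε` everywhere, with `H = H₀` wherever `|H₀ - c₀(H₀)| ≥ ε` and
with the same critical value, and a point `x` such that `S_x` is a viscosity solution on the whole
torus (all `S_x` being well defined). -/
theorem result (n : ℕ) (H₀ : Torus n → Vec n → ℝ) (hn : 1 ≤ n)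
    (hc : Continuous (fun q : Torus n × Vec n => H₀ q.1 q.2)) (hs : Superlinear H₀)
    (ε : ℝ) (hε : 0 < ε) :
    ∃ H : Torus n → Vec n → ℝ,
      Continuous (fun q : Torus n × Vec n => H q.1 q.2) ∧ Superlinear H ∧
      (∀ x p, |H x p - H₀ x p| ≤ ε) ∧
      (∀ x p, ε ≤ |H₀ x p - critical H₀| → H x p = H₀ x p) ∧
      (Levels H).Nonempty ∧ BddBelow (Levels H) ∧ critical H = critical H₀ ∧
      (∀ x y, (Increments H x y).Nonempty ∧ BddAbove (Increments H x y)) ∧
      ∃ x : Torus n, IsSolution H (critical H) (S H x) := by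
  set i : Fin n := ⟨0, hn⟩ with hi
  set c := critical H₀ with hcdef
  set e : ℝ := ε / 2 with he
  have hepos : 0 < e := by rw [he]; positivity
  have hne := levels_nonempty' hc
  have hbd := levels_bddBelow' hc
  obtain ⟨Λ, hΛ, hslope⟩ := exists_slope' hs (c + 2 * ε)
  set Z₀ : Set (Torus n × Vec n) := {q | H₀ q.1 q.2 ≤ c - e} with hZ₀
  set Z₁ : Set (Torus n × Vec n) := {q | H₀ q.1 q.2 ≤ c + e} with hZ₁
  have hZ₁c : IsClosed Z₁ := isClosed_le hc continuous_const
  have h01 : Z₀ ⊆ Z₁ := fun q hq => by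
    have : H₀ q.1 q.2 ≤ c - e := hq
    show H₀ q.1 q.2 ≤ c + e
    linarith
  -- `Z₁` is admissible
  obtain ⟨l₀, ⟨u₀, hu₀⟩, hl₀⟩ := exists_lt_of_csInf_lt hne
    (show sInf (Levels H₀) < c + e by
      have : sInf (Levels H₀) = c := rfl
      rw [this]; linarith)
  have hZ₁ne : (Adm Λ Z₁).Nonempty := by
    obtain ⟨f, hf, -⟩ := norm_adm (Λ := Λ) (Z := Z₁) hu₀.1
      (subsolution_lipschitz i Λ hΛ (fun x p hp => by
        have := hslope x p hp
        linarith) u₀ hu₀) (fun x φ hφ hm => by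
        have := hu₀.2 x φ hφ hm
        show H₀ (proj x) (gradient φ x) ≤ c + e
        linarith)
    exact ⟨f, hf⟩
  -- `Z₀` is not
  have hZ₀e : ¬ (Adm Λ Z₀).Nonempty := by
    rintro ⟨f, hf⟩
    have h1 : c - e ∈ Levels H₀ := ⟨f, f.continuous, fun x φ hφ hm => hf.2 x φ hφ hm⟩
    have h2 : c ≤ c - e := csInf_le hbd h1
    linarith
  obtain ⟨Z, hZc, h0Z, hZ1, hZne, hmin⟩ := exists_minimal hΛ hZ₁c h01 hZ₁ne
  obtain ⟨f₁, hf₁⟩ := hZne
  have hZset : Z.Nonempty := by
    obtain ⟨z, -, hz⟩ := isCompact_univ.exists_isMaxOn (univ_nonempty (α := Torus n))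
      f₁.continuous.continuousOn
    obtain ⟨x, rfl⟩ := proj_surjective z
    exact ⟨_, hf₁.2 x (fun _ => 0) contDiffAt_const (by
      apply Filter.Eventually.of_forall
      intro y
      have := hz (mem_univ (proj y))
      simpa using this)⟩
  set H : Torus n → Vec n → ℝ := Hc H₀ e c Z with hH
  have h2e : 2 * e = ε := by rw [he]; ring
  have hcl : ∀ z p, |H z p - H₀ z p| ≤ ε := fun z p => by
    have h1 := Hc_close H₀ hepos c Z z p
    rw [h2e] at h1
    exact h1
  have hfar : ∀ z p, ε ≤ |H₀ z p - c| → H z p = H₀ z p := fun z p h =>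
    Hc_far H₀ hepos c Z z p (by rw [h2e]; exact h)
  have hHc : Continuous (fun q : Torus n × Vec n => H q.1 q.2) := continuous_Hc hc e c Z
  have hHs : Superlinear H := superlinear_of_close hs hcl
  have hle : ∀ z p, H z p ≤ c ↔ (z, p) ∈ Z := by
    intro z p
    have hχ0 := cut_nonneg (2 * e) c (H₀ z p)
    have hχ1 := cut_le_one (2 * e) c (H₀ z p)
    have hform := Hc_sub H₀ e c Z z p
    constructor
    · intro h
      by_contra hn
      have h1 : 0 < infDist ((z, p) : Torus n × Vec n) Z :=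
        (hZc.notMem_iff_infDist_pos hZset).1 hn
      have h2 : c - e < H₀ z p := by
        by_contra h3
        exact hn (h0Z (not_lt.1 h3))
      have h3 : c < Hm H₀ e c Z z p := by
        show c < max _ (min _ _)
        exact lt_max_of_lt_right (lt_min (by linarith) (by linarith))
      rcases le_or_gt (H₀ z p) (c + e) with h4 | h4
      · have h5 : H z p = Hm H₀ e c Z z p := Hc_near H₀ hepos c Z z p (by
          rw [abs_le]; constructor <;> linarith)
        linarith
      · have h5 : 0 < Hc H₀ e c Z z p - c := by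
          rw [hform]
          rcases eq_or_lt_of_le hχ0 with h6 | h6
          · rw [← h6]; linarith
          · have h7 := mul_pos h6 (sub_pos.2 h3)
            have h8 := mul_nonneg (sub_nonneg.2 hχ1) (by linarith : 0 ≤ H₀ z p - c)
            linarith
        have h6 : H z p = Hc H₀ e c Z z p := rfl
        linarith
    · intro h
      have h1 : infDist ((z, p) : Torus n × Vec n) Z = 0 := infDist_zero_of_mem h
      have h2 : H₀ z p ≤ c + e := hZ1 h
      have h3 : Hm H₀ e c Z z p ≤ c := by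
        show max _ (min _ (c + infDist ((z, p) : Torus n × Vec n) Z)) ≤ c
        rw [h1, add_zero]
        exact max_le (by linarith) (min_le_right _ _)
      rcases le_or_gt (H₀ z p) c with h4 | h4
      · have h5 : Hc H₀ e c Z z p - c ≤ 0 := by
          rw [hform]
          have h7 := mul_nonneg hχ0 (sub_nonneg.2 h3)
          have h8 := mul_nonneg (sub_nonneg.2 hχ1) (by linarith : 0 ≤ c - H₀ z p)
          linarith
        have h6 : H z p = Hc H₀ e c Z z p := rfl
        linarith
      · have h5 : H z p = Hm H₀ e c Z z p := Hc_near H₀ hepos c Z z p (by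
          rw [abs_le]; constructor <;> linarith)
        linarith
  have hlt : ∀ z p, H z p < c → H₀ z p ≤ c - e := by
    intro z p h
    by_contra hn
    push Not at hn
    have hχ0 := cut_nonneg (2 * e) c (H₀ z p)
    have hχ1 := cut_le_one (2 * e) c (H₀ z p)
    have hform := Hc_sub H₀ e c Z z p
    have h2 : 0 ≤ infDist ((z, p) : Torus n × Vec n) Z := infDist_nonneg
    have h3 : c ≤ Hm H₀ e c Z z p := by
      show c ≤ max _ (min _ _)
      exact le_max_of_le_right (le_min (by linarith) (by linarith))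
    rcases le_or_gt (H₀ z p) (c + e) with h4 | h4
    · have h5 : H z p = Hm H₀ e c Z z p := Hc_near H₀ hepos c Z z p (by
        rw [abs_le]; constructor <;> linarith)
      linarith
    · have h5 : 0 ≤ Hc H₀ e c Z z p - c := by
        rw [hform]
        have h7 := mul_nonneg hχ0 (sub_nonneg.2 h3)
        have h8 := mul_nonneg (sub_nonneg.2 hχ1) (by linarith : 0 ≤ H₀ z p - c)
        linarith
      have h6 : H z p = Hc H₀ e c Z z p := rfl
      linarith
  have hsub₁ : IsSubsolution H c f₁ := ⟨f₁.continuous, fun x φ hφ hm =>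
    (hle _ _).2 (hf₁.2 x φ hφ hm)⟩
  have hlow : ∀ l ∈ Levels H, c ≤ l := by
    rintro l ⟨u, hu⟩
    by_contra hl
    push Not at hl
    have h1 : c - e ∈ Levels H₀ := ⟨u, hu.1, fun x φ hφ hm =>
      hlt _ _ ((hu.2 x φ hφ hm).trans_lt hl)⟩
    have h2 : c ≤ c - e := csInf_le hbd h1
    linarith
  have hmem : c ∈ Levels H := ⟨_, hsub₁⟩
  have hHbd : BddBelow (Levels H) := ⟨c, hlow⟩
  have hcrit : critical H = c := le_antisymm (csInf_le hHbd hmem) (le_csInf ⟨c, hmem⟩ hlow)
  have hlip : ∀ u, IsSubsolution H c u → ∀ x y : Vec n, u (proj y) - u (proj x) ≤ Λ * ‖y - x‖ :=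
    fun u hu => subsolution_lipschitz i Λ hΛ (fun x p hp => by
      have h1 := hslope x p hp
      have h2 := (abs_le.1 (hcl x p)).1
      linarith) u hu
  have hinc : ∀ x y, (Increments H x y).Nonempty ∧ BddAbove (Increments H x y) := by
    intro x y
    constructor
    · exact ⟨_, f₁, by rw [hcrit]; exact hsub₁, rfl⟩
    · obtain ⟨x0, rfl⟩ := proj_surjective x
      obtain ⟨y0, rfl⟩ := proj_surjective y
      refine ⟨Λ * ‖y0 - x0‖, ?_⟩
      rintro r ⟨u, hu, rfl⟩
      rw [hcrit] at hu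
      exact hlip u hu x0 y0
  -- the door
  obtain ⟨⟨z₁, p₁⟩, hd1, hd2⟩ : ∃ q ∈ Z, q ∉ Z₀ := by
    by_contra hcon
    push Not at hcon
    exact hZ₀e ⟨f₁, hf₁.1, fun x φ hφ hm => hcon _ (hf₁.2 x φ hφ hm)⟩
  have hp₁ : c ≤ H z₁ p₁ := by
    by_contra h
    exact hd2 (hlt _ _ (not_le.1 h))
  have hZ₀c : IsClosed Z₀ := isClosed_le hc continuous_const
  have hdoor : ∀ O : Set (Torus n × Vec n), IsOpen O → (z₁, p₁) ∈ O → ∀ u, IsSubsolution H c u →
      ∃ (x : Vec n) (φ : Vec n → ℝ), ContDiffAt ℝ 1 φ x ∧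
        IsLocalMax (fun y => u (proj y) - φ y) x ∧ (proj x, gradient φ x) ∈ O := by
    intro O hO hmO u hu
    by_contra hcon
    push Not at hcon
    set Z' : Set (Torus n × Vec n) := Z ∩ (Oᶜ ∪ Z₀) with hZ'
    have h1 : IsClosed Z' := hZc.inter (hO.isClosed_compl.union hZ₀c)
    have h2 : Z₀ ⊆ Z' := fun q hq => ⟨h0Z hq, Or.inr hq⟩
    have h3 : Z' ⊆ Z := inter_subset_left
    have h4 : (Adm Λ Z').Nonempty := by
      obtain ⟨f, hf, -⟩ := norm_adm (Λ := Λ) (Z := Z') hu.1 (hlip u hu) (fun x φ hφ hm =>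
        ⟨(hle _ _).1 (hu.2 x φ hφ hm), Or.inl (hcon x φ hφ hm)⟩)
      exact ⟨f, hf⟩
    have h5 := hmin Z' h1 h2 h3 h4
    have h6 : (z₁, p₁) ∈ Z' := by rw [h5]; exact hd1
    rcases h6.2 with h7 | h7
    · exact h7 hmO
    · exact hd2 h7
  refine ⟨H, hHc, hHs, hcl, hfar, ⟨c, hmem⟩, hHbd, hcrit, hinc, z₁, ?_⟩
  rw [hcrit]
  exact solution_of_door hHc hΛ hcrit hlip ⟨_, hsub₁⟩ z₁ p₁ hp₁ hdoor

end Pool.Agent.Results.MP_12cf7c_an.PositiveDense
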