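import Mathlib
import Pool.Agent.Results.MP_12cf7c_an.WholeClass
import Pool.Agent.Results.MP_12cf7c_an.CounterexamplesDense
import Pool.Agent.Y699.HJ.PositiveDense
import Pool.Agent.Results.MP_12cf7c_an.GenericPositive
import Pool.Agent.Y699.HJ.Adm

set_option autoImplicit false

open Set Filter Topology Metric BoundedContinuousFunction

namespace Pool.Agent.Y699.HJ.Mane

open Pool.Agent.Results.MP_12cf7c_an.WholeClass Pool.Agent.Y699.HJ
open Pool.Agent.Results.MP_12cf7c_an.CounterexamplesDense (gradient_of_isLocalMax exists_slope'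
  levels_nonempty' levels_bddBelow' superlinear_of_close)
open Pool.Agent.Results.MP_12cf7c_an.PositiveDense (norm_adm exists_bump)
open Pool.Agent.Results.MP_12cf7c_an.GenericPositive (Ham limit_level exists_critical sub_close
  critical_close)

variable {n : ℕ}

/-- If no critical subsolution is strict near the point `z₁`, then `S_{z₁}` is a solution. -/
theorem solution_of_fiber {H : Torus n → Vec n → ℝ}
    (hH : Continuous (fun q : Torus n × Vec n => H q.1 q.2)) {c Λ : ℝ} (hΛ : 0 < Λ)
    (hc : critical H = c)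
    (hlip : ∀ u, IsSubsolution H c u → ∀ x y : Vec n, u (proj y) - u (proj x) ≤ Λ * ‖y - x‖)
    (hex : ∃ u, IsSubsolution H c u) (z₁ : Torus n)
    (hdoor : ∀ (O : Set (Torus n)) (η : ℝ), IsOpen O → z₁ ∈ O → 0 < η → ∀ u,
      IsSubsolution H c u → ∃ (x : Vec n) (φ : Vec n → ℝ), ContDiffAt ℝ 1 φ x ∧
        IsLocalMax (fun y => u (proj y) - φ y) x ∧ proj x ∈ O ∧
        c - η < H (proj x) (gradient φ x)) :
    IsSolution H c (S H z₁) := by
  set Z : Set (Torus n × Vec n) := {q | H q.1 q.2 ≤ c} with hZ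
  have hZc : IsClosed Z := isClosed_le hH continuous_const
  have hadm : ∀ u, IsSubsolution H c u → ∃ f ∈ Adm Λ Z, ∀ z, f z = u z - u (proj 0) :=
    fun u hu => norm_adm hu.1 (hlip u hu) (fun x φ hφ hm => hu.2 x φ hφ hm)
  have hsub : ∀ f ∈ Adm Λ Z, IsSubsolution H c f := fun f hf =>
    ⟨f.continuous, fun x φ hφ hm => hf.2 x φ hφ hm⟩
  obtain ⟨u₀, hu₀⟩ := hex
  obtain ⟨f₀, hf₀, -⟩ := hadm u₀ hu₀
  -- the supremum is attained
  have hatt : ∀ y : Torus n, (∃ u, IsSubsolution H c u ∧ u z₁ = 0 ∧ u y = S H z₁ y) ∧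
      ∀ u, IsSubsolution H c u → u y - u z₁ ≤ S H z₁ y := by
    intro y
    obtain ⟨f, hf, hmax⟩ := (isCompact_Adm hΛ hZc).exists_isMaxOn ⟨f₀, hf₀⟩
      ((continuous_eval_const y).sub (continuous_eval_const z₁)).continuousOn
    have hg : IsGreatest (Increments H z₁ y) (f y - f z₁) := by
      constructor
      · exact ⟨f, by rw [hc]; exact hsub f hf, rfl⟩
      · rintro r ⟨u, hu, rfl⟩
        rw [hc] at hu
        obtain ⟨f', hf', he⟩ := hadm u hu
        have h1 : f' y - f' z₁ ≤ f y - f z₁ := hmax hf'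
        rw [he, he] at h1
        linarith
    have hS : S H z₁ y = f y - f z₁ := hg.csSup_eq
    refine ⟨⟨fun z => f z - f z₁, ?_, by ring, hS.symm⟩, fun u hu => ?_⟩
    · refine ⟨f.continuous.sub continuous_const, fun x φ hφ hm => (hsub f hf).2 x φ hφ ?_⟩
      filter_upwards [hm] with y hy
      linarith
    · rw [hS]
      exact hg.2 ⟨u, by rw [hc]; exact hu, rfl⟩
  have hS1 : S H z₁ z₁ = 0 := by
    obtain ⟨⟨u, hu, h1, h2⟩, -⟩ := hatt z₁
    rw [← h2, h1]
  have hSlip : ∀ x y : Vec n, S H z₁ (proj y) - S H z₁ (proj x) ≤ Λ * ‖y - x‖ := by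
    intro x y
    obtain ⟨⟨u, hu, h1, h2⟩, -⟩ := hatt (proj y)
    have h3 := (hatt (proj x)).2 u hu
    have h4 := hlip u hu x y
    rw [← h2]
    rw [h1] at h3
    linarith
  have hScont : Continuous (S H z₁) := by
    rw [isOpenQuotientMap_proj.isQuotientMap.continuous_iff]
    have h1 : LipschitzWith (Real.toNNReal Λ) (S H z₁ ∘ proj) := by
      apply LipschitzWith.of_le_add_mul'
      intro y x
      have := hSlip x y
      rw [dist_eq_norm]
      show S H z₁ (proj y) ≤ S H z₁ (proj x) + Λ * ‖y - x‖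
      linarith
    exact h1.continuous
  have hSsub : IsSubsolution H c (S H z₁) := by
    refine ⟨hScont, fun x φ hφ hm => ?_⟩
    obtain ⟨⟨u, hu, h1, h2⟩, -⟩ := hatt (proj x)
    refine hu.2 x φ hφ ?_
    filter_upwards [hm] with y hy
    have h3 := (hatt (proj y)).2 u hu
    rw [h1, sub_zero] at h3
    rw [h2]
    linarith
  refine ⟨hSsub, hScont, fun x φ hφ hmin => ?_⟩
  by_contra hcon
  push Not at hcon
  set q := gradient φ x with hq
  set η₀ : ℝ := (c - H (proj x) q) / 2 with hη₀
  have hη₀pos : 0 < η₀ := by rw [hη₀]; linarith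
  obtain ⟨κ₀, hκ₀, hbox⟩ := open_box (isOpen_lt hH continuous_const)
    (show (proj x, q) ∈ {r : Torus n × Vec n | H r.1 r.2 < c - η₀} from by
      show H (proj x) q < c - η₀
      rw [hη₀]; linarith)
  -- glueing
  have hglue : ∀ κ a₀ : ℝ, 0 < κ → κ ≤ κ₀ → 0 < a₀ → ∃ (a : ℝ) (Φ : Torus n → ℝ)
      (D : Torus n → Vec n) (v : Torus n → ℝ), 0 < a ∧ a ≤ a₀ ∧ Continuous Φ ∧
      S H z₁ (proj x) < Φ (proj x) ∧ IsSubsolution H c v ∧
      (∀ z, gT (z - proj x) ≤ a → v z = max (S H z₁ z) (Φ z)) ∧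
      (∀ z, a < gT (z - proj x) → v z = S H z₁ z) ∧
      (∀ y : Vec n, HasGradientAt (fun y : Vec n => Φ (proj y)) (D (proj y)) y) ∧
      ∀ z : Torus n, gT (z - proj x) ≤ a → H z (D z) < c - η₀ := by
    intro κ a₀ hκ hκκ ha₀
    obtain ⟨a, Φ, D, ha, haa, hΦc, hΦg, hΦx, hΦb, hΦs⟩ := exists_bump hφ hmin hκ ha₀
    have hGc : Continuous (fun z : Torus n => gT (z - proj x)) :=
      continuous_gT.comp (continuous_id.sub continuous_const)
    classical
    refine ⟨a, Φ, D, fun z => if gT (z - proj x) ≤ a then max (S H z₁ z) (Φ z) else S H z₁ z,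
      ha, haa, hΦc, hΦx, ⟨?_, ?_⟩, fun z hz => if_pos hz, fun z hz => if_neg (not_le.2 hz), hΦg,
      fun z hz => ?_⟩
    · exact Continuous.if_le (hScont.max hΦc) hScont hGc continuous_const
        (fun z hz => max_eq_left (hΦb z hz))
    · intro y ψ hψ hm
      have hge : ∀ z, S H z₁ z ≤ if gT (z - proj x) ≤ a then max (S H z₁ z) (Φ z) else S H z₁ z := by
        intro z
        split_ifs
        · exact le_max_left _ _
        · exact le_rfl
      by_cases hcase : (if gT (proj y - proj x) ≤ a then max (S H z₁ (proj y)) (Φ (proj y)) else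
          S H z₁ (proj y)) = S H z₁ (proj y)
      · refine hSsub.2 y ψ hψ ?_
        filter_upwards [hm] with y' hy'
        have h1 := hge (proj y')
        rw [hcase] at hy'
        linarith
      · have h1 : gT (proj y - proj x) ≤ a := by
          by_contra h2
          exact hcase (if_neg h2)
        rw [if_pos h1] at hcase
        have h2 : S H z₁ (proj y) < Φ (proj y) := by
          by_contra h3
          exact hcase (max_eq_left (not_lt.1 h3))
        have h3 : gT (proj y - proj x) < a := by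
          refine lt_of_le_of_ne h1 fun h4 => ?_
          exact absurd (hΦb _ h4) (not_le.2 h2)
        have h4 : ∀ᶠ y' in 𝓝 y, gT (proj y' - proj x) < a :=
          ((hGc.comp proj_continuous).continuousAt (x := y)).eventually_lt continuousAt_const h3
        have h5 : IsLocalMax (fun y' : Vec n => Φ (proj y') - ψ y') y := by
          filter_upwards [hm, h4] with y' hy' h4'
          rw [if_pos h1, if_pos h4'.le, max_eq_right h2.le] at hy'
          have := le_max_right (S H z₁ (proj y')) (Φ (proj y'))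
          linarith
        rw [gradient_of_isLocalMax (hΦg y) hψ h5]
        obtain ⟨y', hy', h6, h7⟩ := hΦs (proj y) h1
        have h8 : H (proj y') (D (proj y)) < c - η₀ :=
          hbox y' (D (proj y)) (h6.trans hκκ) (h7.trans hκκ)
        rw [hy'] at h8
        linarith
    · obtain ⟨y', hy', h6, h7⟩ := hΦs z hz
      have h8 : H (proj y') (D z) < c - η₀ := hbox y' (D z) (h6.trans hκκ) (h7.trans hκκ)
      rw [hy'] at h8
      exact h8
  by_cases hx : z₁ = proj x
  · -- the door
    obtain ⟨a, Φ, D, v, ha, haa, hΦc, hΦx, hv, hv1, hv2, hΦg, hD⟩ :=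
      hglue κ₀ 1 hκ₀ le_rfl one_pos
    have hGc : Continuous (fun z : Torus n => gT (z - proj x)) :=
      continuous_gT.comp (continuous_id.sub continuous_const)
    have o1 : IsOpen {z : Torus n | S H z₁ z < Φ z} := isOpen_lt hScont hΦc
    have o2 : IsOpen {z : Torus n | gT (z - proj x) < a} := isOpen_lt hGc continuous_const
    obtain ⟨y, ψ, hψ, hm, hO, hval⟩ := hdoor ({z | S H z₁ z < Φ z} ∩ {z | gT (z - proj x) < a})
      η₀ (o1.inter o2) (by
        refine ⟨?_, ?_⟩
        · show S H z₁ z₁ < Φ z₁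
          rw [← hx] at hΦx; exact hΦx
        · show gT (z₁ - proj x) < a
          rw [hx, ← proj_sub, sub_self, gT_proj, g_zero]; exact ha) hη₀pos v hv
    have h1 : S H z₁ (proj y) < Φ (proj y) := hO.1
    have h2 : gT (proj y - proj x) < a := hO.2
    have h4 : ∀ᶠ y' in 𝓝 y, gT (proj y' - proj x) < a :=
      ((hGc.comp proj_continuous).continuousAt (x := y)).eventually_lt continuousAt_const h2
    have h5 : IsLocalMax (fun y' : Vec n => Φ (proj y') - ψ y') y := by
      filter_upwards [hm, h4] with y' hy' h4'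
      rw [hv1 _ h2.le, hv1 _ h4'.le, max_eq_right h1.le] at hy'
      have := le_max_right (S H z₁ (proj y')) (Φ (proj y'))
      linarith
    rw [gradient_of_isLocalMax (hΦg y) hψ h5] at hval
    have h6 := hD _ h2.le
    linarith
  · have hpos : 0 < gT (z₁ - proj x) := by
      refine lt_of_le_of_ne (gT_nonneg _) fun h => ?_
      obtain ⟨y, hy, hy2⟩ := exists_lift z₁ x
      rw [← gT_proj, proj_sub, hy, ← h, mul_zero] at hy2
      have h1 : ‖y - x‖ = 0 := by
        have := sq_nonneg ‖y - x‖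
        exact pow_eq_zero_iff (two_ne_zero) |>.1 (le_antisymm hy2 this)
      rw [norm_eq_zero, sub_eq_zero] at h1
      exact hx (by rw [← hy, h1])
    obtain ⟨a, Φ, D, v, ha, haa, hΦc, hΦx, hv, hv1, hv2, hΦg, hD⟩ :=
      hglue κ₀ (gT (z₁ - proj x) / 2) hκ₀ le_rfl (by positivity)
    have h1 := (hatt (proj x)).2 v hv
    have h2 : v z₁ = 0 := by rw [hv2 z₁ (by linarith), hS1]
    have h3 : v (proj x) = max (S H z₁ (proj x)) (Φ (proj x)) :=
      hv1 _ (by rw [← proj_sub, sub_self, gT_proj, g_zero]; exact ha.le)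
    rw [h2, h3, sub_zero] at h1
    have := le_max_right (S H z₁ (proj x)) (Φ (proj x))
    linarith


end Pool.Agent.Y699.HJ.Mane
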